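import Mathlib

/-!
Chebyshev's estimates with the functional `T(x) - T(x/2) - T(x/3) - T(x/5) + T(x/30)`, and primes
in `[9N/10, 11N/10]`.
-/

set_option autoImplicit false

open Finset
open scoped ArithmeticFunction.vonMangoldt ArithmeticFunction.zeta Nat.Prime

namespace Pool.Agent.Lib.MP_ff3579_an.H78

/-- `log n!` as a sum over the von Mangoldt function -/
theorem log_factorial_eq (X : ℕ) :
    Real.log X.factorial = ∑ n ∈ Ioc 0 X, Λ n * ((X / n : ℕ) : ℝ) := by
  have h1 := ArithmeticFunction.sum_Ioc_mul_zeta_eq_sum (R := ℝ) Λ X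
  rw [← h1]
  have h2 : ((Λ : ArithmeticFunction ℝ) * ((ζ : ArithmeticFunction ℕ) : ArithmeticFunction ℝ)) =
    ArithmeticFunction.log := ArithmeticFunction.vonMangoldt_mul_zeta
  rw [h2]
  induction X with
  | zero => simp
  | succ X ih =>
    rw [Nat.factorial_succ, Nat.cast_mul, Real.log_mul (by positivity)
      (by exact_mod_cast Nat.factorial_ne_zero X), ih, ← Finset.insert_Ioc_right_eq_Ioc_add_one
      (Nat.zero_le X), Finset.sum_insert (by simp)]
    · simp [ArithmeticFunction.log_apply]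
    · exact ArithmeticFunction.sum_Ioc_mul_zeta_eq_sum (R := ℝ) Λ X

/-- the same for `X / d` -/
theorem log_factorial_div_eq (X d : ℕ) :
    Real.log (X / d).factorial = ∑ n ∈ Ioc 0 X, Λ n * ((X / n / d : ℕ) : ℝ) := by
  rw [log_factorial_eq]
  have h : Ioc 0 (X / d) ⊆ Ioc 0 X := by
    intro n hn
    rw [mem_Ioc] at hn ⊢
    exact ⟨hn.1, hn.2.trans (Nat.div_le_self _ _)⟩
  rw [← Finset.sum_subset h]
  · apply Finset.sum_congr rfl
    intro n _
    rw [Nat.div_div_eq_div_mul, Nat.div_div_eq_div_mul, mul_comm d n]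
  · intro n hn hn'
    rw [mem_Ioc] at hn hn'
    have : X / n / d = 0 := by
      rw [Nat.div_div_eq_div_mul, mul_comm, ← Nat.div_div_eq_div_mul]
      apply Nat.div_eq_of_lt
      omega
    rw [this]
    simp

/-- Chebyshev's functional -/
noncomputable def cheb (X : ℕ) : ℝ :=
  Real.log X.factorial - Real.log (X / 2).factorial - Real.log (X / 3).factorial -
    Real.log (X / 5).factorial + Real.log (X / 30).factorial

theorem cheb_eq (X : ℕ) : cheb X = ∑ n ∈ Ioc 0 X, Λ n *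
    (((X / n : ℕ) : ℝ) - ((X / n / 2 : ℕ) : ℝ) - ((X / n / 3 : ℕ) : ℝ) - ((X / n / 5 : ℕ) : ℝ) +
      ((X / n / 30 : ℕ) : ℝ)) := by
  unfold cheb
  rw [log_factorial_eq X, log_factorial_div_eq X 2, log_factorial_div_eq X 3,
    log_factorial_div_eq X 5, log_factorial_div_eq X 30, ← Finset.sum_sub_distrib,
    ← Finset.sum_sub_distrib, ← Finset.sum_sub_distrib, ← Finset.sum_add_distrib]
  apply Finset.sum_congr rfl
  intro n _
  ring

theorem psi_nat (X : ℕ) : Chebyshev.psi X = ∑ n ∈ Ioc 0 X, Λ n := by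
  unfold Chebyshev.psi
  rw [Nat.floor_natCast]

theorem cheb_le_psi (X : ℕ) : cheb X ≤ Chebyshev.psi X := by
  rw [cheb_eq, psi_nat]
  apply Finset.sum_le_sum
  intro n _
  have h0 : 0 ≤ Λ n := ArithmeticFunction.vonMangoldt_nonneg
  obtain ⟨Y, hY⟩ : ∃ Y, Y = X / n := ⟨_, rfl⟩
  rw [← hY]
  have h1 : Y + Y / 30 ≤ Y / 2 + Y / 3 + Y / 5 + 1 := by omega
  have h2 : (Y : ℝ) + ((Y / 30 : ℕ) : ℝ) ≤ ((Y / 2 : ℕ) : ℝ) + ((Y / 3 : ℕ) : ℝ) +
    ((Y / 5 : ℕ) : ℝ) + 1 := by exact_mod_cast h1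
  calc Λ n * _ ≤ Λ n * 1 := mul_le_mul_of_nonneg_left (by linarith) h0
    _ = Λ n := mul_one _

theorem psi_le_cheb (X : ℕ) :
    Chebyshev.psi X ≤ cheb X + Chebyshev.psi ((X / 6 : ℕ) : ℝ) := by
  rw [cheb_eq, psi_nat, psi_nat]
  have h : Ioc 0 (X / 6) ⊆ Ioc 0 X := by
    intro n hn
    rw [mem_Ioc] at hn ⊢
    exact ⟨hn.1, hn.2.trans (Nat.div_le_self _ _)⟩
  have e : ∑ n ∈ Ioc 0 (X / 6), Λ n = ∑ n ∈ Ioc 0 X, if n ≤ X / 6 then Λ n else 0 := by
    rw [← Finset.sum_filter]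
    apply Finset.sum_congr
    · ext n
      simp only [mem_Ioc, mem_filter]
      omega
    · intro n _; rfl
  rw [e, ← Finset.sum_add_distrib]
  apply Finset.sum_le_sum
  intro n hn
  rw [mem_Ioc] at hn
  have h0 : 0 ≤ Λ n := ArithmeticFunction.vonMangoldt_nonneg
  obtain ⟨Y, hY⟩ : ∃ Y, Y = X / n := ⟨_, rfl⟩
  rw [← hY]
  have hY1 : 1 ≤ Y := by rw [hY]; exact (Nat.one_le_div_iff hn.1).2 hn.2
  have h1 : Y / 2 + Y / 3 + Y / 5 ≤ Y + Y / 30 := by omega
  have h2 : ((Y / 2 : ℕ) : ℝ) + ((Y / 3 : ℕ) : ℝ) + ((Y / 5 : ℕ) : ℝ) ≤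
    (Y : ℝ) + ((Y / 30 : ℕ) : ℝ) := by exact_mod_cast h1
  split_ifs with hif
  · have : 0 ≤ Λ n * ((Y : ℝ) - ((Y / 2 : ℕ) : ℝ) - ((Y / 3 : ℕ) : ℝ) - ((Y / 5 : ℕ) : ℝ) +
      ((Y / 30 : ℕ) : ℝ)) := mul_nonneg h0 (by linarith)
    linarith
  · have hY6 : Y < 6 := by
      rw [hY]
      have h3 : X / 6 < n := by omega
      have h4 : X < n * 6 := by omega
      exact (Nat.div_lt_iff_lt_mul hn.1).2 (by omega)
    have h3 : Y / 2 + Y / 3 + Y / 5 + 1 = Y + Y / 30 := by omega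
    have h4 : ((Y / 2 : ℕ) : ℝ) + ((Y / 3 : ℕ) : ℝ) + ((Y / 5 : ℕ) : ℝ) + 1 =
      (Y : ℝ) + ((Y / 30 : ℕ) : ℝ) := by exact_mod_cast h3
    have h5 : (Y : ℝ) - ((Y / 2 : ℕ) : ℝ) - ((Y / 3 : ℕ) : ℝ) - ((Y / 5 : ℕ) : ℝ) +
      ((Y / 30 : ℕ) : ℝ) = 1 := by linarith
    rw [h5]
    linarith

/-- Stirling from above -/
theorem log_factorial_le {m : ℕ} (hm : 1 ≤ m) :
    Real.log m.factorial ≤ m * Real.log m - m + 1 + Real.log m := by
  induction m with
  | zero => omega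
  | succ m ih =>
    rcases Nat.eq_zero_or_pos m with h | h
    · subst h; simp
    · have ih' := ih h
      have hm0 : (0 : ℝ) < m := by exact_mod_cast h
      rw [Nat.factorial_succ, Nat.cast_mul, Real.log_mul (by positivity)
        (by exact_mod_cast Nat.factorial_ne_zero m)]
      have h1 : 1 - ((m + 1 : ℕ) / m : ℝ)⁻¹ ≤ Real.log ((m + 1 : ℕ) / m : ℝ) :=
        Real.one_sub_inv_le_log_of_pos (by positivity)
      rw [Real.log_div (by positivity) hm0.ne', inv_div] at h1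
      have h2 : (1 : ℝ) - m / ((m + 1 : ℕ) : ℝ) = 1 / ((m + 1 : ℕ) : ℝ) := by
        push_cast; field_simp; ring
      rw [h2, div_le_iff₀ (by positivity)] at h1
      push_cast at h1 ⊢
      linarith

/-- comparison of `log ⌊y⌋!` with `y log y - y`, from below -/
theorem le_log_factorial_div {X d : ℕ} (hd : 0 < d) (hX : d ≤ X) :
    (X / d : ℝ) * Real.log (X / d) - X / d - Real.log (X + 1) ≤
      Real.log (X / d).factorial := by
  obtain ⟨m, hm⟩ : ∃ m, m = X / d := ⟨_, rfl⟩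
  rw [← hm]
  have hd0 : (0 : ℝ) < d := by exact_mod_cast hd
  have hy1 : (1 : ℝ) ≤ X / d := by
    rw [le_div_iff₀ hd0, one_mul]
    exact_mod_cast hX
  have hym : (X / d : ℝ) ≤ m + 1 := by
    rw [div_le_iff₀ hd0]
    have : X < (m + 1) * d := by
      rw [hm, mul_comm]
      exact Nat.lt_mul_div_succ X hd
    exact_mod_cast this.le
  have hmX : (m : ℝ) + 1 ≤ X + 1 := by
    have : m ≤ X := by rw [hm]; exact Nat.div_le_self _ _
    have : (m : ℝ) ≤ X := by exact_mod_cast this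
    linarith
  -- monotonicity
  have hmono : (X / d : ℝ) * Real.log (X / d) - X / d ≤
      (m + 1 : ℝ) * Real.log (m + 1) - (m + 1) := by
    have hm1 : (0 : ℝ) < m + 1 := by positivity
    have hy0 : (0 : ℝ) < X / d := by linarith
    have h1 : Real.log ((X / d : ℝ) / (m + 1)) ≤ (X / d : ℝ) / (m + 1) - 1 :=
      Real.log_le_sub_one_of_pos (by positivity)
    rw [Real.log_div hy0.ne' hm1.ne'] at h1
    have h2 : (X / d : ℝ) * (Real.log (X / d) - Real.log (m + 1)) ≤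
        (X / d : ℝ) * ((X / d : ℝ) / (m + 1) - 1) := mul_le_mul_of_nonneg_left h1 hy0.le
    have h3 : 0 ≤ Real.log ((m : ℝ) + 1) := Real.log_nonneg (by linarith)
    have h4 : (X / d : ℝ) * ((X / d : ℝ) / (m + 1)) ≤ X / d := by
      have : (X / d : ℝ) / (m + 1) ≤ 1 := by rw [div_le_one hm1]; exact hym
      calc (X / d : ℝ) * ((X / d : ℝ) / (m + 1)) ≤ (X / d : ℝ) * 1 :=
            mul_le_mul_of_nonneg_left this hy0.le
        _ = X / d := mul_one _
    -- `y log y - y ≤ y log M - y ...`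
    have h5 : Real.log (X / d : ℝ) ≤ Real.log (m + 1) := Real.log_le_log hy0 hym
    -- f(M) - f(y) ≥ (M - y) log y ≥ 0
    have h6 : 1 - ((m + 1 : ℝ) / (X / d))⁻¹ ≤ Real.log ((m + 1 : ℝ) / (X / d)) :=
      Real.one_sub_inv_le_log_of_pos (by positivity)
    rw [Real.log_div hm1.ne' hy0.ne', inv_div] at h6
    have h7 : (m + 1 : ℝ) * (1 - (X / d : ℝ) / (m + 1)) ≤
        (m + 1 : ℝ) * (Real.log (m + 1) - Real.log (X / d)) :=
      mul_le_mul_of_nonneg_left h6 hm1.le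
    have h8 : (m + 1 : ℝ) * (1 - (X / d : ℝ) / (m + 1)) = (m + 1) - X / d := by
      field_simp
    have h9 : 0 ≤ ((m + 1 : ℝ) - X / d) * Real.log (X / d) :=
      mul_nonneg (by linarith) (Real.log_nonneg hy1)
    have e1 : (m + 1 : ℝ) * (Real.log (m + 1) - Real.log (X / d)) =
      (m + 1 : ℝ) * Real.log (m + 1) - (m + 1) * Real.log (X / d) := by ring
    have e2 : ((m + 1 : ℝ) - X / d) * Real.log (X / d) =
      (m + 1) * Real.log (X / d) - X / d * Real.log (X / d) := by ring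
    linarith
  -- Stirling from below
  have hst := Stirling.le_log_factorial_stirling (n := m + 1) (by omega)
  have hfac : Real.log (m + 1).factorial = Real.log (m + 1) + Real.log m.factorial := by
    rw [Nat.factorial_succ, Nat.cast_mul, Real.log_mul (by positivity)
      (by exact_mod_cast Nat.factorial_ne_zero m)]
    push_cast
    rfl
  rw [hfac] at hst
  push_cast at hst
  have h10 : Real.log ((m : ℝ) + 1) ≤ Real.log (X + 1) := Real.log_le_log (by positivity) hmX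
  have h11 : 0 ≤ Real.log ((m : ℝ) + 1) := Real.log_nonneg (by
    have : (0 : ℝ) ≤ m := by positivity
    linarith)
  have h12 : 0 ≤ Real.log (2 * Real.pi) := Real.log_nonneg (by
    have := Real.pi_gt_three
    linarith)
  linarith

/-- comparison of `log ⌊y⌋!` with `y log y - y`, from above -/
theorem log_factorial_div_le {X d : ℕ} (hd : 0 < d) (hX : d ≤ X) :
    Real.log (X / d).factorial ≤
      (X / d : ℝ) * Real.log (X / d) - X / d + 1 + Real.log (X + 1) := by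
  obtain ⟨m, hm⟩ : ∃ m, m = X / d := ⟨_, rfl⟩
  rw [← hm]
  have hd0 : (0 : ℝ) < d := by exact_mod_cast hd
  have hm1 : 1 ≤ m := by rw [hm]; exact (Nat.one_le_div_iff hd).2 hX
  have hm0 : (0 : ℝ) < m := by exact_mod_cast hm1
  have hmy : (m : ℝ) ≤ X / d := by
    rw [hm]; exact Nat.cast_div_le
  have hmX : (m : ℝ) ≤ X + 1 := by
    have : m ≤ X := by rw [hm]; exact Nat.div_le_self _ _
    have : (m : ℝ) ≤ X := by exact_mod_cast this
    linarith
  have h1 := log_factorial_le hm1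
  have h2 : Real.log m ≤ Real.log (X + 1) := Real.log_le_log hm0 hmX
  have hy0 : (0 : ℝ) < X / d := lt_of_lt_of_le hm0 hmy
  have h6 : 1 - ((X / d : ℝ) / m)⁻¹ ≤ Real.log ((X / d : ℝ) / m) :=
    Real.one_sub_inv_le_log_of_pos (by positivity)
  rw [Real.log_div hy0.ne' hm0.ne', inv_div] at h6
  have h7 : (X / d : ℝ) * (1 - m / (X / d : ℝ)) ≤
      (X / d : ℝ) * (Real.log (X / d) - Real.log m) := mul_le_mul_of_nonneg_left h6 hy0.le
  have h8 : (X / d : ℝ) * (1 - m / (X / d : ℝ)) = X / d - m := by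
    have : (X / d : ℝ) ≠ 0 := hy0.ne'
    have e : (X / d : ℝ) * (1 - m / (X / d : ℝ)) = X / d - (X / d) * (m / (X / d)) := by ring
    rw [e, mul_div_cancel₀ _ this]
  have h9 : 0 ≤ ((X / d : ℝ) - m) * Real.log m :=
    mul_nonneg (by linarith) (Real.log_nonneg (by exact_mod_cast hm1))
  have e1 : (X / d : ℝ) * (Real.log (X / d) - Real.log m) =
    (X / d : ℝ) * Real.log (X / d) - X / d * Real.log m := by ring
  have e2 : ((X / d : ℝ) - m) * Real.log m = X / d * Real.log m - m * Real.log m := by ring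
  linarith

end Pool.Agent.Lib.MP_ff3579_an.H78
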