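import Mathlib
import Pool.Agent.Lib.MP_ff3579_an.H78.Cheb

/-!
Primes in `[9N/10, 11N/10]` for large `N`.
-/

set_option autoImplicit false

open Finset Filter

namespace Pool.Agent.Lib.MP_ff3579_an.H78

/-- Chebyshev's constant -/
noncomputable def cA : ℝ := Real.log 2 / 2 + Real.log 3 / 3 + Real.log 5 / 5 - Real.log 30 / 30

theorem log_ratio {a b : ℕ} (ha : 0 < a) {x : ℝ} (m n : ℕ) (hn : 0 < n) (h : a ^ n ≤ b ^ m)
    (hb : Real.log b = x) : Real.log a ≤ m * x / n := by
  rw [le_div_iff₀ (by exact_mod_cast hn), ← hb]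
  have h1 : ((a ^ n : ℕ) : ℝ) ≤ ((b ^ m : ℕ) : ℝ) := by exact_mod_cast h
  push_cast at h1
  have h2 := Real.log_le_log (by positivity) h1
  rw [Real.log_pow, Real.log_pow] at h2
  linarith

theorem log_ratio' {a b : ℕ} (hb0 : 0 < b) {x : ℝ} (m n : ℕ) (hn : 0 < n)
    (h : b ^ m ≤ a ^ n) (hb : Real.log b = x) : m * x / n ≤ Real.log a := by
  rw [div_le_iff₀ (by exact_mod_cast hn), ← hb]
  have h1 : ((b ^ m : ℕ) : ℝ) ≤ ((a ^ n : ℕ) : ℝ) := by exact_mod_cast h
  push_cast at h1
  have h2 := Real.log_le_log (by positivity) h1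
  rw [Real.log_pow, Real.log_pow] at h2
  linarith

theorem log_thirty : Real.log 30 = Real.log 2 + Real.log 3 + Real.log 5 := by
  rw [← Real.log_mul (by norm_num) (by norm_num), ← Real.log_mul (by norm_num) (by norm_num)]
  norm_num

theorem cA_le : cA ≤ 0.9228 := by
  have h2 := Real.log_two_lt_d9
  have h2' := Real.log_two_gt_d9
  have h3 : Real.log 3 ≤ (65 : ℕ) * Real.log 2 / (41 : ℕ) := by
    exact_mod_cast log_ratio (a := 3) (b := 2) (by norm_num) (x := Real.log 2) 65 41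
      (by norm_num) (by norm_num) (by norm_num)
  have h5 : Real.log 5 ≤ (7 : ℕ) * Real.log 2 / (3 : ℕ) := by
    exact_mod_cast log_ratio (a := 5) (b := 2) (by norm_num) (x := Real.log 2) 7 3
      (by norm_num) (by norm_num) (by norm_num)
  unfold cA
  rw [log_thirty]
  push_cast at h3 h5
  norm_num at h3 h5 ⊢
  linarith

theorem le_cA : 0.9208 ≤ cA := by
  have h2' := Real.log_two_gt_d9
  have h3 : (19 : ℕ) * Real.log 2 / (12 : ℕ) ≤ Real.log 3 := by
    exact_mod_cast log_ratio' (a := 3) (b := 2) (by norm_num) (x := Real.log 2) 19 12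
      (by norm_num) (by norm_num) (by norm_num)
  have h5 : (65 : ℕ) * Real.log 2 / (28 : ℕ) ≤ Real.log 5 := by
    exact_mod_cast log_ratio' (a := 5) (b := 2) (by norm_num) (x := Real.log 2) 65 28
      (by norm_num) (by norm_num) (by norm_num)
  unfold cA
  rw [log_thirty]
  push_cast at h3 h5
  norm_num at h3 h5 ⊢
  linarith

theorem main_terms {x : ℝ} (hx : 0 < x) :
    (x * Real.log x - x) - (x / 2 * Real.log (x / 2) - x / 2) -
      (x / 3 * Real.log (x / 3) - x / 3) - (x / 5 * Real.log (x / 5) - x / 5) +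
      (x / 30 * Real.log (x / 30) - x / 30) = cA * x := by
  unfold cA
  rw [Real.log_div hx.ne' (by norm_num), Real.log_div hx.ne' (by norm_num),
    Real.log_div hx.ne' (by norm_num), Real.log_div hx.ne' (by norm_num)]
  ring

theorem cheb_bounds {X : ℕ} (hX : 30 ≤ X) :
    cA * X - (4 + 5 * Real.log (X + 1)) ≤ cheb X ∧
      cheb X ≤ cA * X + (4 + 5 * Real.log (X + 1)) := by
  have hX0 : (0 : ℝ) < X := by
    have : 0 < X := by omega
    exact_mod_cast this
  have hm := main_terms hX0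
  have hl : 0 ≤ Real.log ((X : ℝ) + 1) := Real.log_nonneg (by linarith)
  have a1 := le_log_factorial_div (X := X) (d := 1) (by norm_num) (by omega)
  have a2 := le_log_factorial_div (X := X) (d := 2) (by norm_num) (by omega)
  have a3 := le_log_factorial_div (X := X) (d := 3) (by norm_num) (by omega)
  have a5 := le_log_factorial_div (X := X) (d := 5) (by norm_num) (by omega)
  have a30 := le_log_factorial_div (X := X) (d := 30) (by norm_num) (by omega)
  have b1 := log_factorial_div_le (X := X) (d := 1) (by norm_num) (by omega)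
  have b2 := log_factorial_div_le (X := X) (d := 2) (by norm_num) (by omega)
  have b3 := log_factorial_div_le (X := X) (d := 3) (by norm_num) (by omega)
  have b5 := log_factorial_div_le (X := X) (d := 5) (by norm_num) (by omega)
  have b30 := log_factorial_div_le (X := X) (d := 30) (by norm_num) (by omega)
  rw [Nat.div_one] at a1 b1
  push_cast at a1 a2 a3 a5 a30 b1 b2 b3 b5 b30
  rw [div_one] at a1 b1
  unfold cheb
  constructor
  · linarith
  · linarith

/-- a general form: `cheb X ≤ 0.923 X + K` -/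
theorem exists_upper : ∃ K : ℝ, 0 ≤ K ∧ ∀ X : ℕ, cheb X ≤ 0.923 * X + K := by
  -- `4 + 5 log (X + 1) ≤ 0.0002 X + K`
  obtain ⟨P, hP⟩ : ∃ P, P = Chebyshev.psi ((30 : ℕ) : ℝ) := ⟨_, rfl⟩
  have hψ : 0 ≤ P := by rw [hP]; exact Chebyshev.psi_nonneg _
  have h25 : 0 ≤ Real.log 25000 := Real.log_nonneg (by norm_num)
  refine ⟨4 + 5 * (Real.log 25000 + 1) + P, by linarith, ?_⟩
  · intro X
    rcases Nat.lt_or_ge X 30 with h | h
    · have h1 := cheb_le_psi X
      have h2 : Chebyshev.psi X ≤ P := by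
        rw [hP]
        exact Chebyshev.psi_mono (by exact_mod_cast h.le)
      have h3 : (0 : ℝ) ≤ 0.923 * X := by positivity
      linarith
    · have h1 := (cheb_bounds h).2
      have hX0 : (0 : ℝ) < (X : ℝ) + 1 := by positivity
      have h2 : Real.log (((X : ℝ) + 1) / 25000) ≤ ((X : ℝ) + 1) / 25000 - 1 :=
        Real.log_le_sub_one_of_pos (by positivity)
      rw [Real.log_div hX0.ne' (by norm_num)] at h2
      have h3 := cA_le
      have h4 : cA * X ≤ 0.9228 * X := mul_le_mul_of_nonneg_right h3 (by positivity)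
      have h5 : (5 : ℝ) * Real.log (X + 1) ≤ 0.0002 * X + 5 * (Real.log 25000 + 1) := by
        linarith
      linarith

theorem psi_upper : ∃ K : ℝ, 0 ≤ K ∧ ∀ X : ℕ, Chebyshev.psi X ≤
    1.1076 * X + K * (Nat.log 6 X + 1) := by
  obtain ⟨K, hK0, hK⟩ := exists_upper
  refine ⟨K, hK0, ?_⟩
  intro X
  induction X using Nat.strong_induction_on with
  | _ X ih =>
    have h1 := psi_le_cheb X
    have h2 := hK X
    rcases Nat.lt_or_ge X 6 with h | h
    · have h3 : X / 6 = 0 := Nat.div_eq_of_lt h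
      rw [h3, Nat.cast_zero, Chebyshev.psi_zero, add_zero] at h1
      have h4 : (0 : ℝ) ≤ K * Nat.log 6 X := by positivity
      have h5 : (0 : ℝ) ≤ X := by positivity
      linarith
    · have h3 := ih (X / 6) (Nat.div_lt_self (by omega) (by norm_num))
      have h4 : Nat.log 6 (X / 6) + 1 = Nat.log 6 X := by
        rw [Nat.log_div_base]
        have : 1 ≤ Nat.log 6 X := Nat.le_log_of_pow_le (by norm_num) (by omega)
        omega
      have h5 : ((Nat.log 6 (X / 6) : ℕ) : ℝ) + 1 = Nat.log 6 X := by exact_mod_cast h4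
      rw [h5] at h3
      have h6 : ((X / 6 : ℕ) : ℝ) ≤ X / 6 := by
        have := Nat.cast_div_le (α := ℝ) (m := X) (n := 6)
        simpa using this
      have h7 : K * ((Nat.log 6 X : ℝ) + 1) = K * Nat.log 6 X + K := by ring
      rw [h7]
      linarith

/-- all error terms are `O(√X)` -/
theorem psi_upper' : ∃ C : ℝ, 0 ≤ C ∧ ∀ X : ℕ, 1 ≤ X →
    Chebyshev.psi X ≤ 1.1076 * X + C * √X := by
  obtain ⟨K, hK0, hK⟩ := psi_upper
  refine ⟨3 * K, by positivity, ?_⟩
  intro X hX
  have h1 := hK X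
  have hX1 : (1 : ℝ) ≤ X := by exact_mod_cast hX
  have hs1 : (1 : ℝ) ≤ √X := Real.one_le_sqrt.2 hX1
  have h2 : ((Nat.log 6 X : ℕ) : ℝ) ≤ 2 * √X := by
    have h3 : ((Nat.log 6 X : ℕ) : ℝ) ≤ Real.log X := by
      have h4 : (6 : ℝ) ^ Nat.log 6 X ≤ X := by
        exact_mod_cast Nat.pow_log_le_self 6 (by omega)
      have h5 := Real.log_le_log (by positivity) h4
      rw [Real.log_pow] at h5
      have h6 : (1 : ℝ) ≤ Real.log 6 := by
        rw [Real.le_log_iff_exp_le (by norm_num)]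
        have := Real.exp_one_lt_d9
        linarith
      have h7 : ((Nat.log 6 X : ℕ) : ℝ) * 1 ≤ Nat.log 6 X * Real.log 6 :=
        mul_le_mul_of_nonneg_left h6 (by positivity)
      linarith
    have h4 : Real.log X ≤ 2 * √X := by
      have h5 : Real.log √X ≤ √X - 1 := Real.log_le_sub_one_of_pos (by positivity)
      rw [Real.log_sqrt (by positivity)] at h5
      linarith
    linarith
  have h3 : K * ((Nat.log 6 X : ℝ) + 1) ≤ K * (3 * √X) :=
    mul_le_mul_of_nonneg_left (by linarith) hK0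
  linarith

theorem theta_lower : ∃ C : ℝ, 0 ≤ C ∧ ∀ X : ℕ, 30 ≤ X →
    0.9208 * X - C * √X ≤ Chebyshev.theta X := by
  obtain ⟨C, hC⟩ := Chebyshev.psi_sub_theta_le_mul_sqrt
  refine ⟨|C| + 19, by positivity, ?_⟩
  intro X hX
  have h1 := (cheb_bounds hX).1
  have h2 := cheb_le_psi X
  have h3 := hC X
  have h4 := le_cA
  have hX1 : (1 : ℝ) ≤ X := by
    have : 1 ≤ X := by omega
    exact_mod_cast this
  have hs1 : (1 : ℝ) ≤ √X := Real.one_le_sqrt.2 hX1
  have h5 : 0.9208 * (X : ℝ) ≤ cA * X := mul_le_mul_of_nonneg_right h4 (by positivity)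
  have h6 : C * √X ≤ |C| * √X := mul_le_mul_of_nonneg_right (le_abs_self C) (by positivity)
  have h7 : Real.log ((X : ℝ) + 1) ≤ 3 * √X := by
    have h8 : Real.log (((X : ℝ) + 1) / X) ≤ ((X : ℝ) + 1) / X - 1 :=
      Real.log_le_sub_one_of_pos (by positivity)
    rw [Real.log_div (by positivity) (by positivity)] at h8
    have h9 : ((X : ℝ) + 1) / X - 1 ≤ 1 := by
      rw [sub_le_iff_le_add, div_le_iff₀ (by positivity)]
      linarith
    have h5 : Real.log √X ≤ √X - 1 := Real.log_le_sub_one_of_pos (by positivity)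
    rw [Real.log_sqrt (by positivity)] at h5
    linarith
  have h8 : (|C| + 19) * √X = |C| * √X + 19 * √X := by ring
  rw [h8]
  linarith

/-- a prime in `[9N/10, 11N/10]` -/
theorem exists_near_prime : ∃ N₀ : ℕ, ∀ N, N₀ ≤ N → ∃ p, p.Prime ∧ 9 * N ≤ 10 * p ∧
    10 * p ≤ 11 * N := by
  obtain ⟨C, hC0, hC⟩ := psi_upper'
  obtain ⟨C', hC'0, hC'⟩ := theta_lower
  -- `0.0161 N > (C + 2 C') √N + 1`
  obtain ⟨M, hM⟩ := exists_nat_gt ((C + 2 * C' + 3) / 0.016)
  refine ⟨M ^ 2 + 100, fun N hN => ?_⟩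
  by_contra hcon
  push Not at hcon
  obtain ⟨a, ha⟩ : ∃ a, a = 9 * N / 10 := ⟨_, rfl⟩
  obtain ⟨b, hb⟩ : ∃ b, b = 11 * N / 10 := ⟨_, rfl⟩
  have hN100 : 100 ≤ N := by nlinarith
  -- no primes between
  have hθ : Chebyshev.theta b ≤ Chebyshev.theta a := by
    rw [Chebyshev.theta_eq_sum_primesLE_log, Chebyshev.theta_eq_sum_primesLE_log]
    apply le_of_eq
    apply Finset.sum_congr _ (fun _ _ => rfl)
    ext p
    rw [Nat.mem_primesLE, Nat.mem_primesLE]
    constructor
    · rintro ⟨h1, h2⟩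
      refine ⟨?_, h2⟩
      by_contra h3
      have h4 := hcon p h2 (by omega)
      omega
    · rintro ⟨h1, h2⟩
      exact ⟨by omega, h2⟩
  have h1 := hC' b (by omega)
  have h2 := hC a (by omega)
  have h3 := Chebyshev.theta_le_psi (a : ℝ)
  have hNR : (100 : ℝ) ≤ N := by exact_mod_cast hN100
  have ha1 : (a : ℝ) ≤ 9 * N / 10 := by
    have : 10 * a ≤ 9 * N := by omega
    have : (10 : ℝ) * a ≤ 9 * N := by exact_mod_cast this
    linarith
  have hb1 : 11 * (N : ℝ) / 10 - 1 ≤ b := by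
    have : 11 * N ≤ 10 * b + 10 := by omega
    have : (11 : ℝ) * N ≤ 10 * b + 10 := by exact_mod_cast this
    linarith
  have hb2 : (b : ℝ) ≤ 4 * N := by
    have : b ≤ 4 * N := by omega
    exact_mod_cast this
  have hs0 : 0 ≤ √(N : ℝ) := Real.sqrt_nonneg _
  have hsa : √(a : ℝ) ≤ √N := Real.sqrt_le_sqrt (by linarith)
  have hsb : √(b : ℝ) ≤ 2 * √N := by
    have : √(b : ℝ) ≤ √(4 * N) := Real.sqrt_le_sqrt hb2
    rwa [Real.sqrt_mul (by norm_num), show √(4 : ℝ) = 2 by
      rw [show (4 : ℝ) = 2 ^ 2 by norm_num]; exact Real.sqrt_sq (by norm_num)] at this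
  have hMs : (M : ℝ) ≤ √N := by
    apply Real.le_sqrt_of_sq_le
    have : M ^ 2 ≤ N := by omega
    exact_mod_cast this
  have hkey : (C + 2 * C' + 3) < 0.016 * √N := by
    rw [div_lt_iff₀ (by norm_num)] at hM
    linarith
  have hss : √(N : ℝ) * √N = N := Real.mul_self_sqrt (by positivity)
  have h4 : (C + 2 * C' + 3) * √N ≤ 0.016 * √N * √N := mul_le_mul_of_nonneg_right hkey.le hs0
  rw [mul_assoc, hss] at h4
  have h5 : C * √(a : ℝ) ≤ C * √N := mul_le_mul_of_nonneg_left hsa hC0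
  have h6 : C' * √(b : ℝ) ≤ C' * (2 * √N) := mul_le_mul_of_nonneg_left hsb hC'0
  have h7 : (C + 2 * C' + 3) * √(N : ℝ) = C * √N + C' * (2 * √N) + 3 * √N := by ring
  have hs10 : (10 : ℝ) ≤ √N := by
    apply Real.le_sqrt_of_sq_le
    linarith
  linarith

end Pool.Agent.Lib.MP_ff3579_an.H78
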