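import Mathlib

/-!
A large prime factor in `N, N - 1, ..., N - k` for `C √N ≤ k ≤ N / 20`.
-/

set_option autoImplicit false

open Finset

namespace Pool.Agent.Lib.MP_ff3579_an.H78

/-- logarithm of a natural number as a sum over primes -/
theorem log_eq_sum_primes {n M : ℕ} (hn : n ≠ 0) (hM : ∀ p, p.Prime → p ∣ n → p ≤ M) :
    Real.log n = ∑ p ∈ Nat.primesLE M, n.factorization p * Real.log p := by
  conv_lhs => rw [← Nat.factorization_prod_pow_eq_self hn]
  rw [Finsupp.prod, Nat.cast_prod, Real.log_prod]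
  · rw [Nat.support_factorization]
    rw [← Finset.sum_subset (s₁ := n.primeFactors) (s₂ := Nat.primesLE M)]
    · apply Finset.sum_congr rfl
      intro p _
      push_cast
      rw [Real.log_pow]
    · intro p hp
      rw [Nat.mem_primesLE]
      have hp' := Nat.prime_of_mem_primeFactors hp
      exact ⟨hM p hp' (Nat.dvd_of_mem_primeFactors hp), hp'⟩
    · intro p _ hp
      have : n.factorization p = 0 := by
        rw [← Finsupp.notMem_support_iff, Nat.support_factorization]
        exact hp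
      rw [this]; simp
  · intro p hp
    have hp' := Nat.prime_of_mem_primeFactors (by simpa using hp)
    have : 0 < p := hp'.pos
    positivity

theorem exists_large_prime : ∃ C N₀ : ℕ, ∀ N k : ℕ, N₀ ≤ N → (C : ℝ) * √N ≤ k → 20 * k ≤ N →
    ∃ p b, p.Prime ∧ 2 * k + 2 ≤ p ∧ 2 * N < p ^ 2 ∧ b ≤ k ∧ p ∣ N - b := by
  obtain ⟨C, hC⟩ := Chebyshev.psi_sub_theta_le_mul_sqrt
  obtain ⟨M, hM⟩ := exists_nat_gt (10 * |C| + 100)
  refine ⟨M, 400, fun N k hN hk1 hk2 => ?_⟩
  by_contra hcon
  push Not at hcon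
  have hNR : (400 : ℝ) ≤ N := by exact_mod_cast hN
  have hs20 : (20 : ℝ) ≤ √N := by
    apply Real.le_sqrt_of_sq_le
    linarith
  have hC0 : 0 ≤ |C| := abs_nonneg C
  have hk100 : 100 * √(N : ℝ) ≤ k := by
    have h1 : (10 * |C| + 100) * √(N : ℝ) ≤ M * √N :=
      mul_le_mul_of_nonneg_right hM.le (Real.sqrt_nonneg _)
    have h2 : 0 ≤ 10 * |C| * √(N : ℝ) := by positivity
    linarith
  have hss : √(N : ℝ) * √N = N := Real.mul_self_sqrt (by positivity)
  have hk0 : (2000 : ℝ) ≤ k := by linarith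
  have hk2000 : 2000 ≤ k := by exact_mod_cast hk0
  -- `(2 k + 2) ^ 2 > 2 N`
  have hsq : 2 * N < (2 * k + 2) ^ 2 := by
    have h1 : (N : ℝ) ≤ k * k := by
      rw [← hss]
      exact mul_le_mul (by linarith) (by linarith) (Real.sqrt_nonneg _) (by linarith)
    have h2 : N ≤ k * k := by exact_mod_cast h1
    nlinarith
  have hNk : N.choose (k + 1) ≠ 0 := (Nat.choose_pos (by omega)).ne'
  have hprimes : ∀ p, p.Prime → p ∣ N.choose (k + 1) → p ≤ 2 * k + 1 := by
    intro p hp hdvd
    by_contra h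
    push Not at h
    have h1 : p ∣ N.descFactorial (k + 1) := by
      rw [Nat.descFactorial_eq_factorial_mul_choose]
      exact hdvd.mul_left _
    rw [Nat.descFactorial_eq_prod_range, hp.prime.dvd_finset_prod_iff] at h1
    obtain ⟨b, hb, hb2⟩ := h1
    rw [mem_range] at hb
    exact hcon p b hp (by omega) (hsq.trans_le (Nat.pow_le_pow_left (by omega) 2)) (by omega) hb2
  have h1 := log_eq_sum_primes hNk hprimes
  -- upper bound
  have hub : Real.log (N.choose (k + 1)) ≤ Chebyshev.theta ((2 * k + 1 : ℕ) : ℝ) +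
      (Chebyshev.psi N - Chebyshev.theta N) := by
    rw [h1, Chebyshev.theta_eq_sum_primesLE_log, Chebyshev.psi_eq_sum_mul_log_prime,
      Chebyshev.theta_eq_sum_primesLE_log, ← Finset.sum_sub_distrib]
    have hsub : Nat.primesLE (2 * k + 1) ⊆ Nat.primesLE N := by
      intro p hp
      rw [Nat.mem_primesLE] at hp ⊢
      exact ⟨by omega, hp.2⟩
    have h2 : ∑ p ∈ Nat.primesLE (2 * k + 1), ((Nat.log p N : ℝ) * Real.log p - Real.log p) ≤
        ∑ p ∈ Nat.primesLE N, ((Nat.log p N : ℝ) * Real.log p - Real.log p) := by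
      apply Finset.sum_le_sum_of_subset_of_nonneg hsub
      intro p hp _
      rw [Nat.mem_primesLE] at hp
      have h3 : 1 ≤ Nat.log p N := Nat.le_log_of_pow_le hp.2.one_lt (by simpa using hp.1)
      have h4 : (1 : ℝ) ≤ Nat.log p N := by exact_mod_cast h3
      have h5 : 0 ≤ Real.log p := Real.log_natCast_nonneg p
      have h6 : (1 : ℝ) * Real.log p ≤ Nat.log p N * Real.log p :=
        mul_le_mul_of_nonneg_right h4 h5
      linarith
    have h3 : ∑ p ∈ Nat.primesLE (2 * k + 1), ((N.choose (k + 1)).factorization p : ℝ) *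
        Real.log p ≤ ∑ p ∈ Nat.primesLE (2 * k + 1), (Nat.log p N : ℝ) * Real.log p := by
      apply Finset.sum_le_sum
      intro p _
      apply mul_le_mul_of_nonneg_right _ (Real.log_natCast_nonneg p)
      exact_mod_cast Nat.factorization_choose_le_log
    rw [Finset.sum_sub_distrib] at h2
    linarith
  have h2 := Chebyshev.theta_le_log4_mul_x (x := ((2 * k + 1 : ℕ) : ℝ)) (by positivity)
  have h3 := hC N
  have h4 : C * √(N : ℝ) ≤ |C| * √N :=
    mul_le_mul_of_nonneg_right (le_abs_self C) (Real.sqrt_nonneg _)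
  -- lower bound
  have hlb : (k + 1 : ℝ) * Real.log 18 ≤ Real.log (N.choose (k + 1)) := by
    have h5 : (18 : ℝ) ^ (k + 1) ≤ N.choose (k + 1) := by
      have h6 := Nat.pow_le_choose (α := ℝ) (k + 1) N
      refine le_trans ?_ h6
      rw [le_div_iff₀ (by positivity)]
      have h7 : ((k + 1).factorial : ℝ) ≤ (k + 1 : ℝ) ^ (k + 1) := by
        exact_mod_cast Nat.factorial_le_pow (k + 1)
      have h8 : (18 : ℝ) * (k + 1) ≤ ((N + 1 - (k + 1) : ℕ) : ℝ) := by
        have : 18 * (k + 1) ≤ N + 1 - (k + 1) := by omega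
        exact_mod_cast this
      calc (18 : ℝ) ^ (k + 1) * ((k + 1).factorial : ℝ) ≤ 18 ^ (k + 1) * (k + 1 : ℝ) ^ (k + 1) :=
            mul_le_mul_of_nonneg_left h7 (by positivity)
        _ = (18 * (k + 1)) ^ (k + 1) := by rw [mul_pow]
        _ ≤ ((N + 1 - (k + 1) : ℕ) : ℝ) ^ (k + 1) := pow_le_pow_left₀ (by positivity) h8 _
    have h6 := Real.log_le_log (by positivity) h5
    rw [Real.log_pow] at h6
    push_cast at h6
    exact h6
  -- comparison
  have h18 : Real.log 16 + 0.1 ≤ Real.log 18 := by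
    have h5 : Real.log 18 = Real.log 16 + Real.log (9 / 8) := by
      rw [← Real.log_mul (by norm_num) (by norm_num)]; norm_num
    have h6 : 1 - (9 / 8 : ℝ)⁻¹ ≤ Real.log (9 / 8) := Real.one_sub_inv_le_log_of_pos (by norm_num)
    norm_num at h6 ⊢
    linarith
  have h16 : Real.log 16 = 2 * Real.log 4 := by
    rw [show (16 : ℝ) = 4 ^ 2 by norm_num, Real.log_pow]; norm_num
  have h4le : Real.log 4 ≤ 3 := by
    have := Real.log_le_sub_one_of_pos (show (0 : ℝ) < 4 by norm_num)
    linarith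
  have hkk : (0 : ℝ) ≤ k := by positivity
  have h9 : (k + 1 : ℝ) * (2 * Real.log 4 + 0.1) ≤ (k + 1 : ℝ) * Real.log 18 :=
    mul_le_mul_of_nonneg_left (by linarith) (by linarith)
  push_cast at h2 hub
  have h10 : (k + 1 : ℝ) * (2 * Real.log 4 + 0.1) = Real.log 4 * (2 * k + 1) + Real.log 4 +
    0.1 * (k + 1) := by ring
  have h11 : 0 ≤ Real.log 4 := Real.log_nonneg (by norm_num)
  have h12 : (10 * |C| + 100) * √(N : ℝ) ≤ k := by
    have h1 : (10 * |C| + 100) * √(N : ℝ) ≤ M * √N :=
      mul_le_mul_of_nonneg_right hM.le (Real.sqrt_nonneg _)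
    linarith
  have h13 : (10 * |C| + 100) * √(N : ℝ) = 10 * (|C| * √N) + 100 * √N := by ring
  linarith

end Pool.Agent.Lib.MP_ff3579_an.H78
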