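import Mathlib
import Pool.Agent.Lib.MP_ff3579_an.H78.CountD

/-!
A prime power in one of the numbers `N - 2k + 1, ..., N + 2k` which is not too small,
for `1 ≤ k ≤ N ^ 0.6`.
-/

set_option autoImplicit false

open Finset

namespace Pool.Agent.Lib.MP_ff3579_an.H78

/-- the number of primes `p` with `p + 2 < 8 k` is at most `3 k` -/
theorem card_primes_le {k : ℕ} (hk : 1 ≤ k) :
    (Nat.primesBelow (8 * k - 2)).card ≤ 3 * k := by
  rw [Nat.primesBelow_card_eq_primeCounting']
  rcases Nat.lt_or_ge k 6 with h | h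
  · interval_cases k
    all_goals
      simp only [Nat.primeCounting', Nat.count_succ, Nat.count_zero]
      norm_num
  · have h1 := Nat.primeCounting'_add_le (a := 6) (k := 7) (by norm_num) (by norm_num)
      (8 * k - 2 - 7)
    rw [show 7 + (8 * k - 2 - 7) = 8 * k - 2 by omega] at h1
    have h2 : Nat.primeCounting' 7 = 3 := by
      simp only [Nat.primeCounting', Nat.count_succ, Nat.count_zero]
      norm_num
    have h3 : Nat.totient 6 = 2 := by decide
    rw [h2, h3] at h1
    omega

theorem card_primes_le' {k : ℕ} (hk : 2 ^ 90 ≤ k) :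
    ((Nat.primesBelow (8 * k - 2)).card : ℝ) ≤ k / 2 := by
  have hk1 : ((2 : ℝ) ^ 90) ≤ k := by exact_mod_cast hk
  have h1 : (Nat.primesBelow (8 * k - 2)).card ≤ Nat.primeCounting (8 * k) := by
    rw [Nat.primesBelow_card_eq_primeCounting', Nat.primeCounting]
    exact Nat.monotone_primeCounting' (by omega)
  have h2 := Chebyshev.pi_le_log4_mul_div (x := 8 * (k : ℝ)) (by linarith)
  have h3 : ⌊8 * (k : ℝ)⌋₊ = 8 * k := by
    have : (8 * (k : ℝ)) = ((8 * k : ℕ) : ℝ) := by push_cast; ring
    rw [this, Nat.floor_natCast]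
  rw [h3] at h2
  have h4 : ((Nat.primesBelow (8 * k - 2)).card : ℝ) ≤ Nat.primeCounting (8 * k) := by
    exact_mod_cast h1
  refine h4.trans (h2.trans ?_)
  have hl4 : Real.log 4 ≤ 1.39 := by
    have := Real.log_two_lt_d9
    rw [show (4 : ℝ) = 2 ^ 2 by norm_num, Real.log_pow]
    push_cast
    linarith
  have hl : 31 ≤ Real.log √(8 * (k : ℝ)) := by
    rw [Real.log_sqrt (by positivity)]
    have h5 : Real.log ((2 : ℝ) ^ 93) ≤ Real.log (8 * k) := by
      apply Real.log_le_log (by positivity)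
      have e : (2 : ℝ) ^ 93 = 8 * (2 : ℝ) ^ 90 := by norm_num
      rw [e]
      linarith
    rw [Real.log_pow] at h5
    have := Real.log_two_gt_d9
    push_cast at h5
    linarith
  have h6 : Real.log 4 * (8 * (k : ℝ)) / Real.log √(8 * (k : ℝ)) ≤ 0.36 * k := by
    rw [div_le_iff₀ (by linarith)]
    have hk0 : (0 : ℝ) ≤ k := by positivity
    have h7 : Real.log 4 * (8 * (k : ℝ)) ≤ 1.39 * (8 * k) :=
      mul_le_mul_of_nonneg_right hl4 (by positivity)
    have h8 : 0.36 * (k : ℝ) * 31 ≤ 0.36 * k * Real.log √(8 * (k : ℝ)) :=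
      mul_le_mul_of_nonneg_left hl (by positivity)
    linarith
  have h7 : √(8 * (k : ℝ)) ≤ 0.1 * k := by
    apply Real.sqrt_le_iff.2
    constructor
    · positivity
    · have : (8 : ℝ) * k ≤ (0.01 * k) * k := by
        apply mul_le_mul_of_nonneg_right _ (by positivity)
        have : (2 : ℝ) ^ 90 ≥ 800 := by norm_num
        linarith
      linarith [show (0.1 * (k : ℝ)) ^ 2 = (0.01 * k) * k by ring]
  linarith

theorem sqrt_mul_log_le {Q : ℝ} (hQ : 1 ≤ Q) :
    √Q * Real.log Q ≤ 0.003 * Q + 1000 * Real.log 1000 ^ 2 := by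
  obtain ⟨u, hu⟩ : ∃ u, u = √Q := ⟨_, rfl⟩
  have hu1 : 1 ≤ u := by rw [hu]; exact Real.one_le_sqrt.2 hQ
  have huQ : u * u = Q := by rw [hu]; exact Real.mul_self_sqrt (by linarith)
  have h1 : Real.log (u / 1000) ≤ u / 1000 - 1 := Real.log_le_sub_one_of_pos (by positivity)
  rw [Real.log_div (by linarith) (by norm_num)] at h1
  have h2 : Real.log Q = 2 * Real.log u := by
    rw [← huQ, Real.log_mul (by linarith) (by linarith)]; ring
  rw [← hu, h2]
  have h3 : u * (2 * Real.log u) ≤ u * (2 * (u / 1000 + Real.log 1000)) :=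
    mul_le_mul_of_nonneg_left (by linarith) (by linarith)
  have h4 : 0 ≤ (u - 1000 * Real.log 1000) ^ 2 := sq_nonneg _
  rw [← huQ]
  have h5 : u * (2 * (u / 1000 + Real.log 1000)) = 0.002 * (u * u) + 2 * u * Real.log 1000 := by
    ring
  have h6 : (u - 1000 * Real.log 1000) ^ 2 = u * u - 1000 * (2 * u * Real.log 1000) +
    1000 * (1000 * Real.log 1000 ^ 2) := by ring
  linarith

section window

variable {N k : ℕ}

/-- the prime powers of the binomial coefficient divide one of the numbers of the window -/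
theorem exists_window_dvd {p : ℕ} (hp : p.Prime) (hk : 1 ≤ k) (hkN : 4 * k ≤ N)
    (hp8 : 8 * k ≤ p + 2) (hdvd : p ∣ (N + 2 * k).choose (4 * k)) :
    ∃ x, N < x + 2 * k ∧ x ≤ N + 2 * k ∧
      p ^ ((N + 2 * k).choose (4 * k)).factorization p ∣ x := by
  classical
  have h1 : (N + 2 * k).choose (4 * k) ∣ (N + 2 * k).descFactorial (4 * k) := by
    rw [Nat.descFactorial_eq_factorial_mul_choose]
    exact Dvd.intro_left _ rfl
  have h2 : p ∣ ∏ i ∈ range (4 * k), (N + 2 * k - i) := by
    rw [← Nat.descFactorial_eq_prod_range]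
    exact hdvd.trans h1
  obtain ⟨i₀, hi₀, hpi₀⟩ := (hp.prime.dvd_finsetProd_iff _).1 h2
  have hi₀' := mem_range.1 hi₀
  refine ⟨N + 2 * k - i₀, by omega, by omega, ?_⟩
  have h3 : p ^ ((N + 2 * k).choose (4 * k)).factorization p ∣
      (N + 2 * k - i₀) * ∏ i ∈ (range (4 * k)).erase i₀, (N + 2 * k - i) := by
    rw [Finset.mul_prod_erase _ _ hi₀, ← Nat.descFactorial_eq_prod_range]
    exact (Nat.ordProj_dvd _ _).trans h1
  refine Nat.Coprime.dvd_of_dvd_mul_right ?_ h3
  apply Nat.Coprime.pow_left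
  apply Nat.Coprime.prod_right
  intro i hi
  rw [mem_erase, mem_range] at hi
  rw [Nat.Prime.coprime_iff_not_dvd hp]
  intro h4
  -- two different multiples of `p`
  rcases Nat.lt_or_ge i i₀ with h5 | h5
  · have h6 : p ∣ (N + 2 * k - i) - (N + 2 * k - i₀) := Nat.dvd_sub h4 hpi₀
    have h7 := Nat.le_of_dvd (by omega) h6
    omega
  · have h6 : p ∣ (N + 2 * k - i₀) - (N + 2 * k - i) := Nat.dvd_sub hpi₀ h4
    have h7 := Nat.le_of_dvd (by omega) h6
    omega

end window

/-- the counting argument with explicit error terms -/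
theorem count_window {N k : ℕ} (hk : 1 ≤ k) (hkN : 8 * k ≤ N) {L : ℝ}
    (hL : L = Real.log (2 * N)) (hlog : 1000 ≤ Real.log L)
    (H : ∀ p x B : ℕ, p.Prime → 8 * k ≤ p + 2 → N < x + 2 * k → x ≤ N + 2 * k → p ^ B ∣ x →
      p ^ B ≤ 4 * k * (1 + Nat.log p (2 * N))) :
    4 * k * (L - 2 * Real.log 2 - Real.log (4 * k)) ≤
      (Nat.primesBelow (8 * k - 2)).card * L + 6 * k + 0.04 * k * L +
        1000 * Real.log 1000 ^ 2 := by
  have hN8 : 8 ≤ N := by omega
  have hNR : (8 : ℝ) ≤ N := by exact_mod_cast hN8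
  have hkR : (1 : ℝ) ≤ k := by exact_mod_cast hk
  have hL0 : 1 ≤ L := by
    rw [hL, Real.le_log_iff_exp_le (by positivity)]
    have := Real.exp_one_lt_d9
    linarith
  have hLpos : 0 < L := by linarith
  obtain ⟨C, hC⟩ : ∃ C, C = (N + 2 * k).choose (4 * k) := ⟨_, rfl⟩
  have hC0 : C ≠ 0 := by rw [hC]; exact (Nat.choose_pos (by omega)).ne'
  have hprimes : ∀ p, p.Prime → p ∣ C → p ≤ N + 2 * k := by
    intro p hp hdvd
    by_contra h
    push Not at h
    have h1 := Nat.factorization_choose_eq_zero_of_lt (n := N + 2 * k) (k := 4 * k) h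
    rw [← hC] at h1
    have h2 := (hp.dvd_iff_one_le_factorization hC0).1 hdvd
    omega
  have h1 := log_eq_sum_primes hC0 hprimes
  -- `Q` and `Y`
  obtain ⟨Q, hQ⟩ : ∃ Q : ℝ, Q = 4 * k * (1 + 2 * L) := ⟨_, rfl⟩
  obtain ⟨Y, hY⟩ : ∃ Y : ℝ, Y = 4 * k * (1 + 0.002 * L) := ⟨_, rfl⟩
  have hQ1 : 1 ≤ Q := by
    rw [hQ]
    have : (1 : ℝ) * 1 ≤ 4 * k * (1 + 2 * L) :=
      mul_le_mul (by linarith) (by linarith) (by norm_num) (by linarith)
    linarith
  have hY0 : 0 ≤ Y := by rw [hY]; positivity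
  -- pointwise bound for large primes
  have hbig : ∀ p ∈ Nat.primesLE (N + 2 * k), 8 * k ≤ p + 2 →
      (C.factorization p : ℝ) * Real.log p ≤ (if (p : ℝ) ≤ Y then Real.log p else 0) +
        (if (p : ℝ) ≤ √Q then Real.log Q else 0) := by
    intro p hp hp8
    rw [Nat.mem_primesLE] at hp
    have hpp := hp.2
    have hlp : 0 ≤ Real.log p := Real.log_natCast_nonneg p
    have hnn : 0 ≤ (if (p : ℝ) ≤ Y then Real.log p else 0) +
        (if (p : ℝ) ≤ √Q then Real.log Q else 0) := by
      have := Real.log_nonneg hQ1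
      split_ifs <;> linarith
    rcases Nat.eq_zero_or_pos (C.factorization p) with hv | hv
    · rw [hv]; simpa using hnn
    have hdvd : p ∣ C := (hpp.dvd_iff_one_le_factorization hC0).2 hv
    obtain ⟨x, hx1, hx2, hx3⟩ := exists_window_dvd (N := N) hpp hk (by omega) hp8
      (by rw [← hC]; exact hdvd)
    rw [← hC] at hx3
    have h2 := H p x _ hpp hp8 hx1 hx2 hx3
    have hp6 : 6 ≤ p := by omega
    have hpR : (6 : ℝ) ≤ p := by exact_mod_cast hp6
    have hlp1 : 1 ≤ Real.log p := by
      rw [Real.le_log_iff_exp_le (by linarith)]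
      have := Real.exp_one_lt_d9
      linarith
    -- `Nat.log p (2 N) ≤ L / log p`
    have h3 : ((Nat.log p (2 * N) : ℕ) : ℝ) * Real.log p ≤ L := by
      have h4 : (p : ℝ) ^ Nat.log p (2 * N) ≤ 2 * N := by
        exact_mod_cast Nat.pow_log_le_self p (by omega)
      have h5 := Real.log_le_log (by positivity) h4
      rwa [Real.log_pow, ← hL] at h5
    have h2R : (p : ℝ) ^ C.factorization p ≤ 4 * k * (1 + (Nat.log p (2 * N) : ℕ)) := by
      exact_mod_cast h2
    have h4 : (p : ℝ) ^ C.factorization p ≤ Q := by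
      refine h2R.trans ?_
      rw [hQ]
      apply mul_le_mul_of_nonneg_left _ (by positivity)
      have h5 : ((Nat.log p (2 * N) : ℕ) : ℝ) * 1 ≤ (Nat.log p (2 * N) : ℕ) * Real.log p :=
        mul_le_mul_of_nonneg_left hlp1 (by positivity)
      linarith
    have h5 : (C.factorization p : ℝ) * Real.log p ≤ Real.log Q := by
      rw [← Real.log_pow]
      exact Real.log_le_log (by positivity) h4
    have hpv : (p : ℝ) ≤ (p : ℝ) ^ C.factorization p := by
      calc (p : ℝ) = (p : ℝ) ^ 1 := (pow_one _).symm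
        _ ≤ (p : ℝ) ^ C.factorization p := pow_le_pow_right₀ (by linarith) hv
    have hpY : (p : ℝ) ≤ Y := by
      rw [hY]
      rcases le_or_gt (Real.log L / 2) (Real.log p) with h6 | h6
      · refine hpv.trans (h2R.trans ?_)
        apply mul_le_mul_of_nonneg_left _ (by positivity)
        have h7 : ((Nat.log p (2 * N) : ℕ) : ℝ) * 500 ≤ (Nat.log p (2 * N) : ℕ) * Real.log p :=
          mul_le_mul_of_nonneg_left (by linarith) (by positivity)
        linarith
      · -- `p < √L`
        have h7 : Real.log p < Real.log √L := by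
          rw [Real.log_sqrt hLpos.le]; exact h6
        have h8 : (p : ℝ) < √L := (Real.log_lt_log_iff (by linarith) (by positivity)).1 h7
        have h9 : (10 : ℝ) ^ 6 ≤ L := by
          have h10 : Real.log ((10 : ℝ) ^ 6) ≤ 54 := by
            rw [Real.log_pow]
            have := Real.log_le_sub_one_of_pos (show (0 : ℝ) < 10 by norm_num)
            push_cast
            linarith
          exact (Real.log_le_log_iff (by positivity) hLpos).1 (by linarith)
        have h11 : √L ≤ 0.001 * L := by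
          apply Real.sqrt_le_iff.2
          constructor
          · positivity
          · have : (10 : ℝ) ^ 6 * L ≤ L * L := mul_le_mul_of_nonneg_right h9 hLpos.le
            norm_num at this
            linarith [show (0.001 * L) ^ 2 = 0.000001 * (L * L) by ring]
        have h12 : (1 : ℝ) * (1 + 0.002 * L) ≤ 4 * k * (1 + 0.002 * L) :=
          mul_le_mul_of_nonneg_right (by linarith) (by positivity)
        linarith
    rw [if_pos hpY]
    rcases Nat.lt_or_ge (C.factorization p) 2 with h6 | h6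
    · have h7 : C.factorization p = 1 := by omega
      rw [h7, Nat.cast_one, one_mul]
      have : 0 ≤ (if (p : ℝ) ≤ √Q then Real.log Q else 0) := by
        have := Real.log_nonneg hQ1
        split_ifs <;> linarith
      linarith
    · have h7 : (p : ℝ) ≤ √Q := by
        apply Real.le_sqrt_of_sq_le
        exact (pow_le_pow_right₀ (by linarith) h6).trans h4
      rw [if_pos h7]
      linarith
  -- upper bound
  have hub : Real.log C ≤ (Nat.primesBelow (8 * k - 2)).card * L + Chebyshev.theta Y +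
      √Q * Real.log Q := by
    rw [h1]
    have h2 : ∑ p ∈ Nat.primesLE (N + 2 * k), (C.factorization p : ℝ) * Real.log p ≤
        ∑ p ∈ Nat.primesLE (N + 2 * k), ((if p + 2 < 8 * k then L else 0) +
          ((if (p : ℝ) ≤ Y then Real.log p else 0) +
          (if (p : ℝ) ≤ √Q then Real.log Q else 0))) := by
      apply Finset.sum_le_sum
      intro p hp
      rcases Nat.lt_or_ge (p + 2) (8 * k) with h | h
      · rw [if_pos h]
        have h3 : (p : ℝ) ^ C.factorization p ≤ (N + 2 * k : ℕ) := by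
          rw [hC]
          exact_mod_cast Nat.pow_factorization_choose_le (p := p) (n := N + 2 * k) (k := 4 * k)
            (by omega)
        have hpp := (Nat.mem_primesLE.1 hp).2
        have hp0 : (0 : ℝ) < p := by exact_mod_cast hpp.pos
        have h4 := Real.log_le_log (by positivity) h3
        rw [Real.log_pow] at h4
        have h5 : Real.log ((N + 2 * k : ℕ) : ℝ) ≤ L := by
          rw [hL]
          apply Real.log_le_log
          · have : 0 < N + 2 * k := by omega
            exact_mod_cast this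
          · have : N + 2 * k ≤ 2 * N := by omega
            exact_mod_cast this
        have hlp : 0 ≤ Real.log p := Real.log_natCast_nonneg p
        have hnn : 0 ≤ (if (p : ℝ) ≤ Y then Real.log p else 0) +
            (if (p : ℝ) ≤ √Q then Real.log Q else 0) := by
          have := Real.log_nonneg hQ1
          split_ifs <;> linarith
        linarith
      · rw [if_neg (by omega), zero_add]
        exact hbig p hp h
    refine h2.trans ?_
    rw [Finset.sum_add_distrib, Finset.sum_add_distrib, ← Finset.sum_filter, ← Finset.sum_filter,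
      ← Finset.sum_filter, Finset.sum_const, Finset.sum_const, nsmul_eq_mul, nsmul_eq_mul]
    have e1 : (((Nat.primesLE (N + 2 * k)).filter (fun p : ℕ => p + 2 < 8 * k)).card : ℝ) ≤
        (Nat.primesBelow (8 * k - 2)).card := by
      have : ((Nat.primesLE (N + 2 * k)).filter (fun p : ℕ => p + 2 < 8 * k)) ⊆
          Nat.primesBelow (8 * k - 2) := by
        intro p hp
        rw [mem_filter, Nat.mem_primesLE] at hp
        rw [Nat.mem_primesBelow]
        exact ⟨by omega, hp.1.2⟩
      exact_mod_cast Finset.card_le_card this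
    have e2 : ∑ p ∈ (Nat.primesLE (N + 2 * k)).filter (fun p : ℕ => (p : ℝ) ≤ Y), Real.log p ≤
        Chebyshev.theta Y := by
      rw [Chebyshev.theta_eq_sum_primesLE]
      apply Finset.sum_le_sum_of_subset_of_nonneg
      · intro p hp
        rw [mem_filter, Nat.mem_primesLE] at hp
        rw [Nat.mem_primesLE]
        exact ⟨Nat.le_floor hp.2, hp.1.2⟩
      · intro p _ _
        exact Real.log_natCast_nonneg p
    have e3 : (((Nat.primesLE (N + 2 * k)).filter (fun p : ℕ => (p : ℝ) ≤ √Q)).card : ℝ) ≤ √Q := by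
      have h3 : ((Nat.primesLE (N + 2 * k)).filter (fun p : ℕ => (p : ℝ) ≤ √Q)) ⊆
          Icc 1 ⌊√Q⌋₊ := by
        intro p hp
        rw [mem_filter, Nat.mem_primesLE] at hp
        rw [mem_Icc]
        exact ⟨hp.1.2.one_lt.le, Nat.le_floor hp.2⟩
      have h4 := Finset.card_le_card h3
      rw [Nat.card_Icc, Nat.add_sub_cancel] at h4
      have h5 : (⌊√Q⌋₊ : ℝ) ≤ √Q := Nat.floor_le (Real.sqrt_nonneg _)
      have h6 : (((Nat.primesLE (N + 2 * k)).filter (fun p : ℕ => (p : ℝ) ≤ √Q)).card : ℝ) ≤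
        (⌊√Q⌋₊ : ℝ) := by exact_mod_cast h4
      linarith
    have e1' := mul_le_mul_of_nonneg_right e1 hLpos.le
    have e3' := mul_le_mul_of_nonneg_right e3 (Real.log_nonneg hQ1)
    linarith
  -- lower bound
  have hlb : 4 * k * (L - 2 * Real.log 2 - Real.log (4 * k)) ≤ Real.log C := by
    have h2 := Nat.pow_le_choose (α := ℝ) (4 * k) (N + 2 * k)
    rw [← hC] at h2
    have h3 : ((4 * k).factorial : ℝ) ≤ (4 * k : ℝ) ^ (4 * k) := by
      exact_mod_cast Nat.factorial_le_pow (4 * k)
    have h4 : (N : ℝ) / 2 ≤ ((N + 2 * k + 1 - 4 * k : ℕ) : ℝ) := by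
      have : N ≤ 2 * (N + 2 * k + 1 - 4 * k) := by omega
      have : (N : ℝ) ≤ 2 * ((N + 2 * k + 1 - 4 * k : ℕ) : ℝ) := by exact_mod_cast this
      linarith
    have h5 : ((N : ℝ) / 2 / (4 * k)) ^ (4 * k) ≤ C := by
      refine le_trans ?_ h2
      rw [div_pow]
      have h6 : ((N : ℝ) / 2) ^ (4 * k) ≤ ((N + 2 * k + 1 - 4 * k : ℕ) : ℝ) ^ (4 * k) :=
        pow_le_pow_left₀ (by positivity) h4 _
      calc ((N : ℝ) / 2) ^ (4 * k) / (4 * k) ^ (4 * k) ≤
          ((N + 2 * k + 1 - 4 * k : ℕ) : ℝ) ^ (4 * k) / (4 * k) ^ (4 * k) :=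
            div_le_div_of_nonneg_right h6 (by positivity)
        _ ≤ _ := div_le_div_of_nonneg_left (by positivity) (by positivity) h3
    have h6 := Real.log_le_log (by positivity) h5
    rw [Real.log_pow, Real.log_div (by positivity) (by positivity),
      Real.log_div (by positivity) (by norm_num)] at h6
    have h7 : L = Real.log 2 + Real.log N := by
      rw [hL, Real.log_mul (by norm_num) (by positivity)]
    push_cast at h6
    rw [h7]
    have e : Real.log 2 + Real.log (N : ℝ) - 2 * Real.log 2 - Real.log (4 * k) =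
      Real.log N - Real.log 2 - Real.log (4 * k) := by ring
    rw [e]
    exact h6
  have h2 := Chebyshev.theta_le_log4_mul_x hY0
  have h3 := sqrt_mul_log_le hQ1
  have hl4 : Real.log 4 ≤ 1.39 := by
    have := Real.log_two_lt_d9
    rw [show (4 : ℝ) = 2 ^ 2 by norm_num, Real.log_pow]
    push_cast
    linarith
  have h4 : Real.log 4 * Y ≤ 1.39 * Y := mul_le_mul_of_nonneg_right hl4 hY0
  have hkL : 0 ≤ (k : ℝ) * L := by positivity
  have e1 : 1.39 * Y = 5.56 * k + 0.01112 * (k * L) := by rw [hY]; ring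
  have e2 : 0.003 * Q = 0.012 * k + 0.024 * (k * L) := by rw [hQ]; ring
  have e3 : 0.04 * (k : ℝ) * L = 0.04 * (k * L) := by ring
  rw [e3]
  linarith

theorem exists_window_prime : ∃ N₀ : ℕ, ∀ N k : ℕ, N₀ ≤ N → 1 ≤ k →
    (k : ℝ) ≤ (N : ℝ) ^ (0.6 : ℝ) → 8 * k ≤ N → ∃ p x B, p.Prime ∧ 8 * k ≤ p + 2 ∧
      N < x + 2 * k ∧ x ≤ N + 2 * k ∧ p ^ B ∣ x ∧ 4 * k * (1 + Nat.log p (2 * N)) < p ^ B := by
  obtain ⟨K, hK⟩ : ∃ K, K = 1000 * Real.log 1000 ^ 2 := ⟨_, rfl⟩
  have hK0 : 0 ≤ K := by rw [hK]; positivity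
  obtain ⟨N₀, hN₀⟩ := exists_nat_gt (Real.exp (Real.exp 1000 + 2 * K + 1000))
  refine ⟨N₀, fun N k hN hk hk6 hkN => ?_⟩
  by_contra hcon
  push Not at hcon
  obtain ⟨L, hL⟩ : ∃ L, L = Real.log (2 * N) := ⟨_, rfl⟩
  have hNN : Real.exp (Real.exp 1000 + 2 * K + 1000) < N := by
    have : (N₀ : ℝ) ≤ N := by exact_mod_cast hN
    linarith
  have hN0 : (0 : ℝ) < N := (Real.exp_pos _).trans hNN
  have hLbig : Real.exp 1000 + 2 * K + 1000 < L := by
    rw [hL, Real.lt_log_iff_exp_lt (by positivity)]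
    linarith
  have hexp : 0 < Real.exp 1000 := Real.exp_pos _
  have hLpos : 0 < L := by linarith
  have hlog : 1000 ≤ Real.log L := by
    rw [Real.le_log_iff_exp_le hLpos]
    linarith
  have hmain := count_window hk hkN hL hlog (fun p x B hp h1 h2 h3 h4 => hcon p x B hp h1 h2 h3 h4)
  rw [← hK] at hmain
  have hkR : (1 : ℝ) ≤ k := by exact_mod_cast hk
  have hl2 : Real.log 2 ≤ 0.7 := by
    have := Real.log_two_lt_d9
    linarith
  have hKk : K ≤ K * k := by
    have : K * 1 ≤ K * k := mul_le_mul_of_nonneg_left hkR hK0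
    linarith
  rcases Nat.lt_or_ge k (2 ^ 90) with hk0 | hk0
  · have h1 : ((Nat.primesBelow (8 * k - 2)).card : ℝ) ≤ 3 * k := by
      exact_mod_cast card_primes_le hk
    have h2 : ((Nat.primesBelow (8 * k - 2)).card : ℝ) * L ≤ 3 * k * L :=
      mul_le_mul_of_nonneg_right h1 hLpos.le
    have h3 : Real.log (4 * (k : ℝ)) ≤ 92 := by
      have h4 : (4 * (k : ℝ)) ≤ (2 : ℝ) ^ 92 := by
        have : (k : ℝ) ≤ 2 ^ 90 := by exact_mod_cast hk0.le
        calc (4 * (k : ℝ)) ≤ 4 * 2 ^ 90 := by linarith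
          _ = 2 ^ 92 := by norm_num
      have h5 := Real.log_le_log (by positivity) h4
      rw [Real.log_pow] at h5
      push_cast at h5
      linarith
    have h4 : 4 * (k : ℝ) * (L - 2 * 0.7 - 92) ≤
        4 * k * (L - 2 * Real.log 2 - Real.log (4 * k)) :=
      mul_le_mul_of_nonneg_left (by linarith) (by positivity)
    -- divide by `k`
    have h5 : (k : ℝ) * (4 * (L - 2 * 0.7 - 92)) ≤ k * (3 * L + 6 + 0.04 * L + K) := by
      linarith
    have h6 := le_of_mul_le_mul_left h5 (by linarith)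
    linarith
  · have h1 := card_primes_le' hk0
    have h2 : ((Nat.primesBelow (8 * k - 2)).card : ℝ) * L ≤ k / 2 * L :=
      mul_le_mul_of_nonneg_right h1 hLpos.le
    have h3 : Real.log (4 * (k : ℝ)) ≤ 1.4 + 0.6 * L := by
      rw [Real.log_mul (by norm_num) (by positivity)]
      have h4 := Real.log_le_log (by positivity) hk6
      rw [Real.log_rpow hN0] at h4
      have h5 : Real.log (N : ℝ) ≤ L := by
        rw [hL]
        exact Real.log_le_log hN0 (by linarith)
      have h6 : Real.log 4 ≤ 1.4 := by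
        rw [show (4 : ℝ) = 2 ^ 2 by norm_num, Real.log_pow]
        push_cast
        linarith
      linarith
    have h4 : 4 * (k : ℝ) * (L - 2 * 0.7 - (1.4 + 0.6 * L)) ≤
        4 * k * (L - 2 * Real.log 2 - Real.log (4 * k)) :=
      mul_le_mul_of_nonneg_left (by linarith) (by positivity)
    have h5 : (k : ℝ) * (4 * (L - 2 * 0.7 - (1.4 + 0.6 * L))) ≤
        k * (1 / 2 * L + 6 + 0.04 * L + K) := by
      linarith
    have h6 := le_of_mul_le_mul_left h5 (by linarith)
    linarith

end Pool.Agent.Lib.MP_ff3579_an.H78
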