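import Mathlib

/-!
Factors of monic integer polynomials: two `p`-adic criteria.
-/

set_option autoImplicit false

open Polynomial

namespace Pool.Agent.Lib.MP_ff3579_an.H78

/-- If `p` divides the coefficients of `A * B` up to the degree of `B`, it divides `A(0)`. -/
theorem dvd_coeff_zero {p : ℕ} (hp : p.Prime) {A B : ℤ[X]} (hB : B.Monic)
    (h : ∀ i, i ≤ B.natDegree → (p : ℤ) ∣ (A * B).coeff i) : (p : ℤ) ∣ A.coeff 0 := by
  have : Fact p.Prime := ⟨hp⟩
  by_contra hcon
  have h1 : (X : (ZMod p)[X]) ^ (B.natDegree + 1) ∣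
      A.map (Int.castRingHom (ZMod p)) * B.map (Int.castRingHom (ZMod p)) := by
    rw [← Polynomial.map_mul, X_pow_dvd_iff]
    intro d hd
    rw [coeff_map]
    have h2 := h d (by omega)
    simpa using (ZMod.intCast_zmod_eq_zero_iff_dvd ((A * B).coeff d) p).2 h2
  have h2 : ¬ (X : (ZMod p)[X]) ∣ A.map (Int.castRingHom (ZMod p)) := by
    rw [X_dvd_iff, coeff_map]
    intro h3
    exact hcon ((ZMod.intCast_zmod_eq_zero_iff_dvd (A.coeff 0) p).1 (by simpa using h3))
  have h3 : (X : (ZMod p)[X]) ^ (B.natDegree + 1) ∣ B.map (Int.castRingHom (ZMod p)) :=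
    (prime_X.pow_dvd_of_dvd_mul_left _ h2 h1)
  have hBm : (B.map (Int.castRingHom (ZMod p))).Monic := hB.map _
  have h4 := natDegree_le_of_dvd h3 hBm.ne_zero
  rw [natDegree_X_pow, hB.natDegree_map] at h4
  omega

/-- An extension of Eisenstein's criterion. -/
theorem natDegree_le_or {p : ℕ} (hp : p.Prime) {A B : ℤ[X]} (hA : A.Monic) (hB : B.Monic)
    {s m : ℕ} (hm : (A * B).natDegree = m)
    (h : ∀ i, i + s < m → (p : ℤ) ∣ (A * B).coeff i)
    (h0 : ¬ (p : ℤ) ^ 2 ∣ (A * B).coeff 0) : A.natDegree ≤ s ∨ B.natDegree ≤ s := by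
  by_contra hcon
  push Not at hcon
  rw [hA.natDegree_mul hB] at hm
  have h1 : (p : ℤ) ∣ A.coeff 0 := dvd_coeff_zero hp hB fun i hi => h i (by omega)
  have h2 : (p : ℤ) ∣ B.coeff 0 := by
    refine dvd_coeff_zero (B := A) hp hA fun i hi => ?_
    rw [mul_comm]
    exact h i (by omega)
  apply h0
  rw [mul_coeff_zero, pow_two]
  exact mul_dvd_mul h1 h2

/-- A slope condition: if all zeros of `A * B` have `p`-adic valuation less than `1 / deg A`, then
`p` does not divide `A(0)`. -/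
theorem not_dvd_coeff_zero {p : ℕ} (hp : p.Prime) {A B : ℤ[X]} (hA : A.Monic)
    {k m : ℕ} (hk : A.natDegree = k) (hk0 : 0 < k) (hm : (A * B).natDegree = m)
    (h0 : (A * B).coeff 0 ≠ 0)
    (h : ∀ i, 1 ≤ i → i ≤ m → (A * B).coeff i ≠ 0 →
      k * padicValInt p ((A * B).coeff 0) < k * padicValInt p ((A * B).coeff i) + i) :
    ¬ (p : ℤ) ∣ A.coeff 0 := by
  have hF : Fact p.Prime := ⟨hp⟩
  intro hdvd
  have hp1 : (1 : ℝ) < p := by exact_mod_cast hp.one_lt
  have hp0 : (0 : ℝ) < p := by linarith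
  -- `m` is positive
  have hAB0 : A * B ≠ 0 := fun h => h0 (by rw [h, coeff_zero])
  have hkm : k ≤ m := by
    rw [← hk, ← hm]
    exact natDegree_le_of_dvd (Dvd.intro _ rfl) hAB0
  have hm0 : 0 < m := by omega
  have hmR : (0 : ℝ) < m := by exact_mod_cast hm0
  have hkR : (0 : ℝ) < k := by exact_mod_cast hk0
  -- the slope
  obtain ⟨σ, hσ⟩ : ∃ σ : ℝ, σ = ((m : ℝ) - 1) / (m * k) := ⟨_, rfl⟩
  have hσk : σ * k < 1 := by
    rw [hσ]
    have : ((m : ℝ) - 1) / (m * k) * k = 1 - 1 / m := by field_simp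
    rw [this]
    have : 0 < 1 / (m : ℝ) := by positivity
    linarith
  let v := Rat.AbsoluteValue.padic p
  have hna : IsNonarchimedean v := by
    intro x y
    have := padicNorm.nonarchimedean (p := p) (q := x) (r := y)
    change ((padicNorm p (x + y) : ℚ) : ℝ) ≤ max ((padicNorm p x : ℚ) : ℝ) ((padicNorm p y : ℚ) : ℝ)
    exact_mod_cast this
  obtain ⟨c, hc⟩ : ∃ c : ℝ, c = (p : ℝ) ^ (-σ) := ⟨_, rfl⟩
  have hc0 : 0 < c := by rw [hc]; exact Real.rpow_pos_of_pos hp0 _
  have hci : ∀ i : ℕ, c ^ i = (p : ℝ) ^ (-(σ * i)) := by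
    intro i
    rw [hc, ← Real.rpow_natCast, ← Real.rpow_mul hp0.le]
    congr 1
    ring
  have hv : ∀ z : ℤ, z ≠ 0 → v ((z : ℤ) : ℚ) = (p : ℝ) ^ (-(padicValInt p z : ℝ)) := by
    intro z hz
    change ((padicNorm p ((z : ℤ) : ℚ) : ℚ) : ℝ) = _
    rw [padicNorm.eq_zpow_of_nonzero (by exact_mod_cast hz), padicValRat.of_int]
    push_cast
    rw [← Real.rpow_intCast]
    push_cast
    rfl
  let φ := Int.castRingHom ℚ
  have hgm := gaussNorm_mul (v := v) hna hc0 (A.map φ) (B.map φ)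
  rw [← Polynomial.map_mul] at hgm
  -- the norm of the product
  have hf0 : (((A * B).map φ).gaussNorm v c) ≤ v ((A * B).map φ |>.coeff 0) := by
    obtain ⟨i, hi⟩ := exists_eq_gaussNorm v c ((A * B).map φ)
    rw [hi]
    rcases Nat.eq_zero_or_pos i with hi0 | hi0
    · rw [hi0, pow_zero, mul_one]
    · rw [coeff_map, coeff_map]
      by_cases hz : (A * B).coeff i = 0
      · rw [hz, map_zero, map_zero, zero_mul]
        exact v.nonneg _
      · have him : i ≤ m := by
          rw [← hm]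
          exact le_natDegree_of_ne_zero hz
        have h1 := h i hi0 him hz
        change v (((A * B).coeff i : ℤ) : ℚ) * c ^ i ≤ v (((A * B).coeff 0 : ℤ) : ℚ)
        rw [hv _ hz, hv _ h0, hci, ← Real.rpow_add hp0]
        apply Real.rpow_le_rpow_of_exponent_le hp1.le
        have h2 : (k : ℝ) * padicValInt p ((A * B).coeff 0) + 1 ≤
            k * padicValInt p ((A * B).coeff i) + i := by exact_mod_cast h1
        have h3 : (i : ℝ) / m ≤ 1 := by
          rw [div_le_one hmR]
          exact_mod_cast him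
        have h4 : σ * i * k = i - i / m := by
          rw [hσ]
          field_simp
        have h5 : (k : ℝ) * (-(padicValInt p ((A * B).coeff i) : ℝ) + -(σ * i)) ≤
            k * -(padicValInt p ((A * B).coeff 0) : ℝ) := by
          have : (k : ℝ) * (-(padicValInt p ((A * B).coeff i) : ℝ) + -(σ * i)) =
            -(k * padicValInt p ((A * B).coeff i)) - σ * i * k := by ring
          rw [this, h4]
          linarith
        exact le_of_mul_le_mul_left h5 hkR
  have hA0 := le_gaussNorm (p := A.map φ) v (c := c) hc0.le 0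
  have hAk := le_gaussNorm (p := A.map φ) v (c := c) hc0.le k
  have hB0 := le_gaussNorm (p := B.map φ) v (c := c) hc0.le 0
  rw [pow_zero, mul_one, coeff_map] at hA0 hB0
  rw [coeff_map, ← hk, hA.coeff_natDegree, map_one, map_one, one_mul, hk, hci] at hAk
  have hAB : A.coeff 0 ≠ 0 ∧ B.coeff 0 ≠ 0 := by
    rw [mul_coeff_zero] at h0
    exact ⟨left_ne_zero_of_mul h0, right_ne_zero_of_mul h0⟩
  have hvB : 0 < v (φ (B.coeff 0)) := by
    apply v.pos
    change ((B.coeff 0 : ℤ) : ℚ) ≠ 0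
    exact_mod_cast hAB.2
  have hmulv : v ((A * B).map φ |>.coeff 0) = v (φ (A.coeff 0)) * v (φ (B.coeff 0)) := by
    rw [coeff_map, mul_coeff_zero, map_mul, map_mul]
  have h6 : (A.map φ).gaussNorm v c * v (φ (B.coeff 0)) ≤
      v (φ (A.coeff 0)) * v (φ (B.coeff 0)) := by
    rw [← hmulv]
    refine le_trans ?_ hf0
    rw [hgm]
    exact mul_le_mul_of_nonneg_left hB0 (gaussNorm_nonneg v _ hc0.le)
  have h7 : (A.map φ).gaussNorm v c ≤ v (φ (A.coeff 0)) := le_of_mul_le_mul_right h6 hvB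
  have h8 := hAk.trans h7
  change _ ≤ v (((A.coeff 0 : ℤ)) : ℚ) at h8
  rw [hv _ hAB.1] at h8
  have h9 : (1 : ℝ) ≤ padicValInt p (A.coeff 0) := by
    have : 1 ≤ padicValInt p (A.coeff 0) := by
      by_contra h10
      push Not at h10
      have h11 : padicValInt p (A.coeff 0) = 0 := by omega
      rcases padicValInt.eq_zero_iff.1 h11 with h | h | h
      · exact hp.ne_one h
      · exact hAB.1 h
      · exact h hdvd
    exact_mod_cast this
  have h10 := (Real.rpow_le_rpow_left_iff hp1).1 h8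
  linarith

end Pool.Agent.Lib.MP_ff3579_an.H78
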