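import Mathlib
import Pool.Agent.Lib.MP_ff3579_an.Arithmetic
import Pool.Agent.Lib.MP_ff3579_an.H78.Factor

/-!
Valuations of the coefficients `cf N j` at primes dividing numbers close to `N`.
-/

set_option autoImplicit false

open Polynomial

namespace Pool.Agent.Lib.MP_ff3579_an.H78

open Pool.Agent.Lib.MP_ff3579_an

/-- a prime dividing a number of the window `N - 2k < x ≤ N + 2k` divides `cf N j`, `j ≥ k` -/
theorem dvd_cf {N k j x p : ℕ} (hp : p.Prime) (hx1 : N < x + 2 * k) (hx2 : x ≤ N + 2 * k)
    (hpx : p ∣ x) (hkj : k ≤ j) (hj : 2 * j ≤ N) : p ∣ cf N j := by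
  rcases Nat.lt_or_ge (2 * j) p with h | h
  · have h1 := cf_mul hj
    have h2 : (N + 2 * j - 4 * j).factorial * (N + 2 * j).descFactorial (4 * j) =
        (N + 2 * j).factorial := Nat.factorial_mul_descFactorial (by omega)
    have e : N + 2 * j - 4 * j = N - 2 * j := by omega
    rw [e, ← h1] at h2
    have h3 : cf N j * (2 * j).factorial = (N + 2 * j).descFactorial (4 * j) := by
      apply Nat.eq_of_mul_eq_mul_left (Nat.factorial_pos (N - 2 * j))
      rw [h2]; ring
    have h4 : x ∣ (N + 2 * j).descFactorial (4 * j) := by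
      rw [Nat.descFactorial_eq_prod_range]
      have h5 : N + 2 * j - (N + 2 * j - x) = x := by omega
      have h6 : N + 2 * j - x ∈ Finset.range (4 * j) := by
        rw [Finset.mem_range]; omega
      have := Finset.dvd_prod_of_mem (fun i => N + 2 * j - i) h6
      simpa only [h5] using this
    have h5 : p ∣ cf N j * (2 * j).factorial := by
      rw [h3]; exact hpx.trans h4
    rcases (Nat.Prime.dvd_mul hp).1 h5 with h6 | h6
    · exact h6
    · exact absurd ((hp.dvd_factorial).1 h6) (by omega)
  · have h1 : p ∣ (2 * j).factorial := (hp.dvd_factorial).2 h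
    unfold cf
    rw [Nat.descFactorial_eq_factorial_mul_choose]
    exact Dvd.dvd.mul_left (Dvd.dvd.mul_right h1 _) _

section val

variable {p : ℕ} [hF : Fact p.Prime]

theorem val_prod (s : Finset ℕ) (f : ℕ → ℕ) (hf : ∀ w ∈ s, f w ≠ 0) :
    padicValNat p (∏ w ∈ s, f w) = ∑ w ∈ s, padicValNat p (f w) := by
  classical
  induction s using Finset.induction_on with
  | empty => simp
  | insert a s ha ih =>
    rw [Finset.prod_insert ha, Finset.sum_insert ha, padicValNat.mul, ih]
    · intro w hw
      exact hf w (Finset.mem_insert_of_mem hw)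
    · exact hf a (Finset.mem_insert_self _ _)
    · rw [Finset.prod_ne_zero_iff]
      intro w hw
      exact hf w (Finset.mem_insert_of_mem hw)

/-- valuations of a progression with difference `2` -/
theorem val_progression (hp2 : p ≠ 2) {y i : ℕ} (hi : 1 ≤ i) (hy : 2 * (i - 1) < y) :
    ∃ w₀, w₀ < i ∧ padicValNat p (∏ w ∈ Finset.range i, (y - 2 * w)) ≤
      padicValNat p (y - 2 * w₀) + padicValNat p (i - 1).factorial := by
  have hp := hF.out
  obtain ⟨w₀, hw₀, hmax⟩ := Finset.exists_max_image (Finset.range i)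
    (fun w => padicValNat p (y - 2 * w)) ⟨0, Finset.mem_range.2 (by omega)⟩
  rw [Finset.mem_range] at hw₀
  refine ⟨w₀, hw₀, ?_⟩
  have hne : ∀ w ∈ Finset.range i, y - 2 * w ≠ 0 := by
    intro w hw
    rw [Finset.mem_range] at hw
    omega
  rw [val_prod _ _ hne]
  -- the distances
  have hdist : ∀ w, w < i → ∀ d : ℕ, d ≠ 0 → (w + d = w₀ ∨ w₀ + d = w) →
      padicValNat p (y - 2 * w) ≤ padicValNat p d := by
    intro w hw d hd hwd
    rw [← padicValNat_dvd_iff_le hd]
    have h1 : p ^ padicValNat p (y - 2 * w) ∣ y - 2 * w := pow_padicValNat_dvd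
    have h2 : p ^ padicValNat p (y - 2 * w) ∣ y - 2 * w₀ :=
      (pow_dvd_pow p (hmax w (Finset.mem_range.2 hw))).trans pow_padicValNat_dvd
    have h3 : p ^ padicValNat p (y - 2 * w) ∣ 2 * d := by
      rcases hwd with h | h
      · have : 2 * d = (y - 2 * w) - (y - 2 * w₀) := by omega
        rw [this]
        exact Nat.dvd_sub h1 h2
      · have : 2 * d = (y - 2 * w₀) - (y - 2 * w) := by omega
        rw [this]
        exact Nat.dvd_sub h2 h1
    have h4 : Nat.Coprime (p ^ padicValNat p (y - 2 * w)) 2 := by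
      apply Nat.Coprime.pow_left
      exact (Nat.coprime_primes hp Nat.prime_two).2 hp2
    exact h4.dvd_of_dvd_mul_left h3
  have hsplit : ∑ w ∈ Finset.range i, padicValNat p (y - 2 * w) =
      (∑ w ∈ Finset.range w₀, padicValNat p (y - 2 * w)) + padicValNat p (y - 2 * w₀) +
      ∑ d ∈ Finset.range (i - 1 - w₀), padicValNat p (y - 2 * (w₀ + 1 + d)) := by
    have e : i = (w₀ + 1) + (i - 1 - w₀) := by omega
    conv_lhs => rw [e]
    rw [Finset.sum_range_add, Finset.sum_range_succ]
  have hfac : ∀ n : ℕ, padicValNat p n.factorial =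
      ∑ d ∈ Finset.range n, padicValNat p (d + 1) := by
    intro n
    rw [← Finset.prod_range_add_one_eq_factorial, val_prod]
    intro w _
    omega
  have h1 : ∑ w ∈ Finset.range w₀, padicValNat p (y - 2 * w) ≤ padicValNat p w₀.factorial := by
    rw [hfac, ← Finset.sum_range_reflect]
    apply Finset.sum_le_sum
    intro d hd
    rw [Finset.mem_range] at hd
    exact hdist _ (by omega) _ (by omega) (Or.inl (by omega))
  have h2 : ∑ d ∈ Finset.range (i - 1 - w₀), padicValNat p (y - 2 * (w₀ + 1 + d)) ≤
      padicValNat p (i - 1 - w₀).factorial := by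
    rw [hfac]
    apply Finset.sum_le_sum
    intro d hd
    rw [Finset.mem_range] at hd
    exact hdist _ (by omega) _ (by omega) (Or.inr (by omega))
  have h3 : padicValNat p w₀.factorial + padicValNat p (i - 1 - w₀).factorial ≤
      padicValNat p (i - 1).factorial := by
    rw [← padicValNat.mul (Nat.factorial_ne_zero _) (Nat.factorial_ne_zero _)]
    apply (padicValNat_dvd_iff_le (Nat.factorial_ne_zero _)).1
    exact pow_padicValNat_dvd.trans (Nat.factorial_mul_factorial_dvd_factorial (by omega))
  omega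

/-- the product of consecutive integers below `N + 2 (N/2)` -/
theorem desc_eq (N i : ℕ) (hi : 2 * i ≤ N) : (N + 2 * (N / 2)).descFactorial (2 * i) =
    2 ^ i * (2 * (N / 2)).descFactorial i * ∏ w ∈ Finset.range i, (2 * N - 1 - 2 * w) := by
  induction i with
  | zero => simp
  | succ i ih =>
    have ih' := ih (by omega)
    rw [show 2 * (i + 1) = 2 * i + 1 + 1 by ring, Nat.descFactorial_succ, Nat.descFactorial_succ,
      ih', Nat.descFactorial_succ, Finset.prod_range_succ]
    rcases Nat.mod_two_eq_zero_or_one N with h | h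
    · have e1 : N + 2 * (N / 2) - (2 * i + 1) = 2 * N - 1 - 2 * i := by omega
      have e2 : N + 2 * (N / 2) - 2 * i = 2 * (2 * (N / 2) - i) := by omega
      rw [e1, e2]
      ring
    · have e1 : N + 2 * (N / 2) - (2 * i + 1) = 2 * (2 * (N / 2) - i) := by omega
      have e2 : N + 2 * (N / 2) - 2 * i = 2 * N - 1 - 2 * i := by omega
      rw [e1, e2]
      ring

/-- comparison of the last coefficients -/
theorem val_cf_le (hp2 : p ≠ 2) {N i : ℕ} (hi : 1 ≤ i) (hiN : i ≤ N / 2) :
    ∃ w₀, w₀ < i ∧ padicValNat p (cf N (N / 2)) ≤ padicValNat p (cf N (N / 2 - i)) +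
      padicValNat p (2 * i + 1).factorial + padicValNat p (2 * N - 1 - 2 * w₀) +
      padicValNat p (i - 1).factorial := by
  have hp := hF.out
  obtain ⟨w₀, hw₀, hprod⟩ := val_progression (p := p) hp2 (y := 2 * N - 1) hi (by omega)
  refine ⟨w₀, hw₀, ?_⟩
  have hm : 2 * (N / 2) ≤ N := by omega
  have hm' : 2 * (N / 2 - i) ≤ N := by omega
  -- valuations of factorials
  have h1 := congrArg (padicValNat p) (cf_mul hm)
  have h2 := congrArg (padicValNat p) (cf_mul hm')
  rw [padicValNat.mul (cf_ne_zero hm) (mul_ne_zero (Nat.factorial_ne_zero _)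
    (Nat.factorial_ne_zero _)), padicValNat.mul (Nat.factorial_ne_zero _)
    (Nat.factorial_ne_zero _)] at h1
  rw [padicValNat.mul (cf_ne_zero hm') (mul_ne_zero (Nat.factorial_ne_zero _)
    (Nat.factorial_ne_zero _)), padicValNat.mul (Nat.factorial_ne_zero _)
    (Nat.factorial_ne_zero _)] at h2
  have hdesc : ∀ n l : ℕ, l ≤ n → padicValNat p n.factorial =
      padicValNat p (n - l).factorial + padicValNat p (n.descFactorial l) := by
    intro n l hl
    rw [← Nat.factorial_mul_descFactorial hl, padicValNat.mul (Nat.factorial_ne_zero _)]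
    rw [Ne, Nat.descFactorial_eq_zero_iff_lt]
    omega
  have h3 := hdesc (N + 2 * (N / 2)) (2 * i) (by omega)
  have h4 := hdesc (2 * (N / 2)) (2 * i) (by omega)
  have e3 : N + 2 * (N / 2) - 2 * i = N + 2 * (N / 2 - i) := by omega
  have e4 : 2 * (N / 2) - 2 * i = 2 * (N / 2 - i) := by omega
  rw [e3] at h3
  rw [e4] at h4
  have hprod0 : ∏ w ∈ Finset.range i, (2 * N - 1 - 2 * w) ≠ 0 := by
    rw [Finset.prod_ne_zero_iff]
    intro w hw
    rw [Finset.mem_range] at hw
    omega
  have hdi0 : (2 * (N / 2)).descFactorial i ≠ 0 := by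
    rw [Ne, Nat.descFactorial_eq_zero_iff_lt]
    omega
  have h5 : padicValNat p ((N + 2 * (N / 2)).descFactorial (2 * i)) =
      padicValNat p ((2 * (N / 2)).descFactorial i) +
      padicValNat p (∏ w ∈ Finset.range i, (2 * N - 1 - 2 * w)) := by
    rw [desc_eq N i (by omega), padicValNat.mul (mul_ne_zero (by positivity) hdi0) hprod0,
      padicValNat.mul (by positivity) hdi0]
    have : padicValNat p (2 ^ i) = 0 := by
      apply padicValNat.eq_zero_of_not_dvd
      intro h
      exact hp2 ((Nat.prime_dvd_prime_iff_eq hp Nat.prime_two).1 (hp.dvd_of_dvd_pow h))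
    rw [this, zero_add]
  have h6 : padicValNat p ((2 * (N / 2)).descFactorial i) ≤
      padicValNat p ((2 * (N / 2)).descFactorial (2 * i)) := by
    apply (padicValNat_dvd_iff_le _).1
    · refine pow_padicValNat_dvd.trans ?_
      rw [Nat.descFactorial_eq_prod_range, Nat.descFactorial_eq_prod_range]
      exact Finset.prod_dvd_prod_of_subset _ _ _ (Finset.range_mono (by omega))
    · rw [Ne, Nat.descFactorial_eq_zero_iff_lt]
      omega
  have h7 : padicValNat p (N - 2 * (N / 2 - i)).factorial ≤
      padicValNat p (2 * i + 1).factorial := by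
    apply (padicValNat_dvd_iff_le (Nat.factorial_ne_zero _)).1
    exact pow_padicValNat_dvd.trans (Nat.factorial_dvd_factorial (by omega))
  omega

end val

end Pool.Agent.Lib.MP_ff3579_an.H78
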