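import Mathlib
import Pool.Agent.Lib.MP_ff3579_an.H78.Vals

/-!
Slopes of `Zp N` at primes dividing numbers close to `N`.
-/

set_option autoImplicit false

open Polynomial

namespace Pool.Agent.Lib.MP_ff3579_an.H78

open Pool.Agent.Lib.MP_ff3579_an

/-- all zeros of `Zp N` have `p`-adic valuation less than `1/k` -/
def Slope (N k p : ℕ) : Prop :=
  ∀ i, 1 ≤ i → i ≤ N / 2 → k * padicValNat p (cf N (N / 2)) <
    k * padicValNat p (cf N (N / 2 - i)) + i

/-- the arithmetic of the slope condition -/
theorem slope_arith {k p i A a b : ℕ} (hp6 : 6 * k + 1 ≤ p)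
    (hp7 : 7 ≤ p) (hp8 : 8 * k ≤ p + 2) (hk : 1 ≤ k) (hi : 1 ≤ i)
    (ha : (p - 1) * a ≤ 2 * i) (hb : (p - 1) * b + 1 ≤ i)
    (hA : A = 0 ∨ p ^ A + 1 ≤ 4 * k + 2 * i ∨ 4 * k * A + 1 ≤ 2 * i) :
    k * (A + a + b) < i := by
  obtain ⟨P, hP⟩ : ∃ P, p = P + 1 := ⟨p - 1, by omega⟩
  subst hP
  rw [Nat.add_sub_cancel] at ha hb
  have hPpos : 0 < P := by omega
  have h6 : 6 * k ≤ P := by omega
  -- it is enough to compare after multiplication with `P`
  suffices h : k * (P * A + (2 * i + (i - 1))) < P * i by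
    have h1 : P * (k * (A + a + b)) ≤ k * (P * A + (2 * i + (i - 1))) := by
      have : P * (k * (A + a + b)) = k * (P * A + (P * a + P * b)) := by ring
      rw [this]
      apply Nat.mul_le_mul_left
      omega
    exact lt_of_mul_lt_mul_left (h1.trans_lt h) (Nat.zero_le P)
  -- the case `2 k A < i`
  have hcase : 2 * k * A + 1 ≤ i → k * (P * A + (2 * i + (i - 1))) < P * i := by
    intro h
    have h1 : P * (2 * k * A + 1) ≤ P * i := Nat.mul_le_mul_left _ h
    have h2 : 6 * k * (i + 1) ≤ P * (i + 1) := Nat.mul_le_mul_right _ h6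
    have h3 : 2 * (k * (P * A + (2 * i + (i - 1)))) =
        P * (2 * k * A) + 2 * k * (2 * i + (i - 1)) := by ring
    have h4 : 2 * k * (2 * i + (i - 1)) + 2 * k = 6 * k * i := by
      obtain ⟨j, rfl⟩ : ∃ j, i = j + 1 := ⟨i - 1, by omega⟩
      rw [Nat.add_sub_cancel]
      ring
    have h5 : P * (2 * k * A + 1) = P * (2 * k * A) + P := by ring
    have h6' : 6 * k * (i + 1) = 6 * k * i + 6 * k := by ring
    have h7 : P * (i + 1) = P * i + P := by ring
    omega
  rcases hA with hA | hA | hA
  · apply hcase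
    rw [hA]
    omega
  · rcases Nat.lt_or_ge A 2 with hA2 | hA2
    · rcases Nat.eq_zero_or_pos A with hA0 | hA0
      · apply hcase
        rw [hA0]
        omega
      · have hA1 : A = 1 := by omega
        rw [hA1, pow_one] at hA
        rw [hA1, mul_one]
        -- `2 i + 4 k ≥ P + 2`
        obtain ⟨u, hu⟩ : ∃ u, P + 3 = 8 * k + u := ⟨P + 3 - 8 * k, by omega⟩
        obtain ⟨t, ht⟩ : ∃ t, 2 * i + 4 * k = P + 2 + t := ⟨2 * i + 4 * k - (P + 2), by omega⟩
        have key : (0 : ℤ) < 2 * ((P : ℤ) * i - k * (P + (2 * i + (i - 1)))) := by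
          have e1 : (2 * i : ℤ) = P + 2 + t - 4 * k := by
            have : ((2 * i + 4 * k : ℕ) : ℤ) = ((P + 2 + t : ℕ) : ℤ) := by rw [ht]
            push_cast at this
            linarith
          have e2 : (P : ℤ) = 8 * k + u - 3 := by
            have : ((P + 3 : ℕ) : ℤ) = ((8 * k + u : ℕ) : ℤ) := by rw [hu]
            push_cast at this
            linarith
          have e3 : 2 * ((P : ℤ) * i - k * (P + (2 * i + (i - 1)))) =
              (2 * i) * (P - 3 * k) - 2 * k * (P - 1) := by ring
          rw [e3, e1, e2]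
          have e4 : (8 * (k : ℤ) + u - 3 + 2 + t - 4 * k) * (8 * k + u - 3 - 3 * k) -
              2 * k * (8 * k + u - 3 - 1) =
              (4 * (k : ℤ) ^ 2 - 9 * k + 3) + u * (7 * k - 4) + (u : ℤ) ^ 2 +
                t * (5 * k + u - 3) := by ring
          rw [e4]
          have ht0 : (0 : ℤ) ≤ t := by positivity
          have hu0 : (0 : ℤ) ≤ u := by positivity
          rcases Nat.lt_or_ge k 2 with hk2 | hk2
          · have hk1 : k = 1 := by omega
            subst hk1
            have hu1 : (1 : ℤ) ≤ u := by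
              have : 1 ≤ u := by omega
              exact_mod_cast this
            have h8 : (0 : ℤ) ≤ t * (5 * ((1 : ℕ) : ℤ) + u - 3) := by
              apply mul_nonneg ht0
              push_cast
              linarith
            have h9 : (1 : ℤ) ≤ (u : ℤ) ^ 2 := by
              have := pow_le_pow_left₀ (by norm_num : (0:ℤ) ≤ 1) hu1 2
              linarith
            push_cast at h8 ⊢
            linarith
          · have hkZ : (2 : ℤ) ≤ k := by exact_mod_cast hk2
            have h8 : (0 : ℤ) ≤ t * (5 * k + u - 3) := by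
              apply mul_nonneg ht0
              linarith
            have h9 : (0 : ℤ) ≤ u * (7 * k - 4) := by
              apply mul_nonneg hu0
              linarith
            have h10 : (0 : ℤ) ≤ (u : ℤ) ^ 2 := sq_nonneg _
            have h11 : (0 : ℤ) < 4 * (k : ℤ) ^ 2 - 9 * k + 3 := by
              have : 4 * (k : ℤ) ^ 2 - 9 * k + 3 = (k - 2) * (4 * k - 1) + 1 := by ring
              rw [this]
              have h12 : (0 : ℤ) ≤ (k - 2) * (4 * k - 1) :=
                mul_nonneg (by linarith) (by linarith)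
              linarith
            linarith
        have h8 : (k : ℤ) * (P + (2 * i + (i - 1))) < P * i := by linarith
        have h9 : ((i - 1 : ℕ) : ℤ) = (i : ℤ) - 1 := by
          rw [Nat.cast_sub hi]; norm_num
        have h10 : ((k * (P + (2 * i + (i - 1))) : ℕ) : ℤ) < ((P * i : ℕ) : ℤ) := by
          push_cast
          rw [h9]
          exact h8
        exact_mod_cast h10
    · apply hcase
      -- Bernoulli
      have h1 : 1 + A * (6 * k) ≤ (1 + 6 * k) ^ A := by
        have h0 : (0 : ℤ) ≤ 6 * k := by positivity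
        have := one_add_mul_le_pow (R := ℤ) (a := 6 * k) (by linarith) A
        exact_mod_cast this
      have h2 : (1 + 6 * k) ^ A ≤ (P + 1) ^ A := Nat.pow_le_pow_left (by omega) A
      have h3 : 2 * (2 * k) ≤ A * (2 * k) := Nat.mul_le_mul_right _ hA2
      have h4 : A * (6 * k) = A * (2 * k) + 2 * (2 * k * A) := by ring
      omega
  · apply hcase
    have : 4 * k * A = 2 * (2 * k * A) := by ring
    omega

/-- The slope condition at primes `p ≥ 8 k - 2` whose power dividing a number of the window is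
not too small. -/
theorem slope_of_window {N k x p B : ℕ} (hp : p.Prime) (hk : 1 ≤ k) (hp7 : 7 ≤ p)
    (hp8 : 8 * k ≤ p + 2) (hx1 : N < x + 2 * k) (hx2 : x ≤ N + 2 * k) (hB : p ^ B ∣ x)
    (hbig : 4 * k * (1 + Nat.log p (2 * N)) < p ^ B) : Slope N k p := by
  have hF : Fact p.Prime := ⟨hp⟩
  intro i hi hiN
  have hp2 : p ≠ 2 := by omega
  obtain ⟨w₀, hw₀, hle⟩ := val_cf_le (p := p) hp2 hi hiN
  obtain ⟨A, hA⟩ : ∃ A, A = padicValNat p (2 * N - 1 - 2 * w₀) := ⟨_, rfl⟩
  have hApow : p ^ A ∣ 2 * N - 1 - 2 * w₀ := by rw [hA]; exact pow_padicValNat_dvd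
  have ha := sub_one_mul_padicValNat_factorial_lt_of_ne_zero (p := p) (n := 2 * i + 1) (by omega)
  have hb : (p - 1) * padicValNat p (i - 1).factorial + 1 ≤ i := by
    rcases Nat.eq_or_lt_of_le hi with h | h
    · rw [← h]; simp
    · have := sub_one_mul_padicValNat_factorial_lt_of_ne_zero (p := p) (n := i - 1) (by omega)
      omega
  have hmain : k * (A + padicValNat p (2 * i + 1).factorial +
      padicValNat p (i - 1).factorial) < i := by
    apply slope_arith (p := p) (by omega) hp7 hp8 hk hi (by omega) hb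
    rcases Nat.eq_zero_or_pos A with hA0 | hA0
    · exact Or.inl hA0
    right
    -- the common divisor
    have hcom : ∀ t, t ≤ A → t ≤ B → p ^ t + 1 ≤ 4 * k + 2 * i := by
      intro t htA htB
      have h1 : p ^ t ∣ x := (pow_dvd_pow p htB).trans hB
      have h2 : p ^ t ∣ 2 * N - 1 - 2 * w₀ := (pow_dvd_pow p htA).trans hApow
      rcases Nat.lt_or_ge (2 * N - 1 - 2 * w₀) (2 * x) with h | h
      · have h3 : p ^ t ∣ 2 * x - (2 * N - 1 - 2 * w₀) := Nat.dvd_sub (h1.mul_left 2) h2
        have h4 := Nat.le_of_dvd (by omega) h3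
        omega
      · have h3 : p ^ t ∣ (2 * N - 1 - 2 * w₀) - 2 * x := Nat.dvd_sub h2 (h1.mul_left 2)
        have h4 := Nat.le_of_dvd (by omega) h3
        omega
    rcases Nat.lt_or_ge B A with h | h
    · right
      have h1 := hcom B h.le le_rfl
      have h2 : A ≤ Nat.log p (2 * N) := by
        apply Nat.le_log_of_pow_le hp.one_lt
        exact (Nat.le_of_dvd (by omega) hApow).trans (by omega)
      have h3 : 4 * k * (1 + A) ≤ 4 * k * (1 + Nat.log p (2 * N)) :=
        Nat.mul_le_mul_left _ (by omega)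
      have h4 : 4 * k * (1 + A) = 4 * k + 4 * k * A := by ring
      omega
    · left
      exact hcom A le_rfl h
  have h1 : k * padicValNat p (cf N (N / 2)) ≤ k * (padicValNat p (cf N (N / 2 - i)) +
      (A + padicValNat p (2 * i + 1).factorial + padicValNat p (i - 1).factorial)) := by
    apply Nat.mul_le_mul_left
    omega
  rw [mul_add] at h1
  omega

/-- valuations for `p ^ 2 > 2 N` -/
theorem val_cf_large {p N j : ℕ} (hp : p.Prime) (hN : 2 * N < p ^ 2) (hj : 2 * j ≤ N) :
    padicValNat p (cf N j) + (2 * j / p + (N - 2 * j) / p) = (N + 2 * j) / p := by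
  have h3 : p ^ 2 ≤ p ^ 3 := Nat.pow_le_pow_right hp.pos (by norm_num)
  have h := padicValNat_cf hp (by omega) hj
  unfold lg at h
  rw [Nat.div_eq_of_lt (show 2 * j < p ^ 2 by omega),
    Nat.div_eq_of_lt (show N - 2 * j < p ^ 2 by omega),
    Nat.div_eq_of_lt (show N + 2 * j < p ^ 2 by omega)] at h
  simpa using h

/-- The slope condition at primes `p ≥ 2 k + 2`, `p ^ 2 > 2 N`, dividing `N - b`, `b ≤ k`. -/
theorem slope_of_large {N k b p : ℕ} (hp : p.Prime) (hp2k : 2 * k + 2 ≤ p)
    (hN : 2 * N < p ^ 2) (hb : b ≤ k) (hbN : b ≤ N) (hdvd : p ∣ N - b) : Slope N k p := by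
  intro i hi hiN
  have h1 := val_cf_large hp hN (j := N / 2) (by omega)
  have h2 := val_cf_large hp hN (j := N / 2 - i) (by omega)
  obtain ⟨v, hv⟩ : ∃ v, v = padicValNat p (cf N (N / 2)) := ⟨_, rfl⟩
  obtain ⟨v', hv'⟩ : ∃ v', v' = padicValNat p (cf N (N / 2 - i)) := ⟨_, rfl⟩
  rw [← hv] at h1 ⊢
  rw [← hv'] at h2 ⊢
  have hpp := hp.pos
  obtain ⟨h, hh⟩ := hdvd
  have hNh : N = p * h + b := by omega
  -- claim: `v ≤ v' + (2 i + 1) / p`
  have hclaim : v ≤ v' + (2 * i + 1) / p := by
    rcases Nat.mod_two_eq_zero_or_one N with hpar | hpar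
    · have e1 : N + 2 * (N / 2) = 2 * N := by omega
      have e2 : 2 * (N / 2) = N := by omega
      have e3 : N - 2 * (N / 2) = 0 := by omega
      have e4 : N + 2 * (N / 2 - i) = 2 * N - 2 * i := by omega
      have e5 : 2 * (N / 2 - i) = N - 2 * i := by omega
      have e6 : N - 2 * (N / 2 - i) = 2 * i := by omega
      rw [e1, e2, Nat.sub_self, Nat.zero_div] at h1
      rw [e4, e5, show N - (N - 2 * i) = 2 * i by omega] at h2
      have h3 : 2 * N / p = 2 * h := by
        rw [show 2 * N = p * (2 * h) + 2 * b by rw [hNh]; ring, Nat.mul_add_div hpp,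
          Nat.div_eq_of_lt (by omega), add_zero]
      have h4 : N / p = h := by
        rw [hNh, Nat.mul_add_div hpp, Nat.div_eq_of_lt (by omega), add_zero]
      have h5 : h + (N - 2 * i) / p ≤ (2 * N - 2 * i) / p := by
        rw [Nat.le_div_iff_mul_le hpp, add_mul]
        have h6 := Nat.div_mul_le_self (N - 2 * i) p
        have h7 : h * p ≤ N := by rw [hNh, mul_comm]; omega
        omega
      have h6 : 2 * i / p ≤ (2 * i + 1) / p := Nat.div_le_div_right (by omega)
      omega
    · have e1 : N + 2 * (N / 2) = 2 * N - 1 := by omega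
      have e2 : 2 * (N / 2) = N - 1 := by omega
      have e4 : N + 2 * (N / 2 - i) = 2 * N - 1 - 2 * i := by omega
      have e5 : 2 * (N / 2 - i) = N - 1 - 2 * i := by omega
      rw [e1, e2, show N - (N - 1) = 1 by omega, Nat.div_eq_of_lt hp.one_lt] at h1
      rw [e4, e5, show N - (N - 1 - 2 * i) = 2 * i + 1 by omega] at h2
      rcases Nat.eq_zero_or_pos b with hb0 | hb0
      · -- `p ∣ N`
        rw [hb0, add_zero] at hNh
        have hh0 : 1 ≤ h := by
          rcases Nat.eq_zero_or_pos h with h0 | h0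
          · rw [h0, mul_zero] at hNh; omega
          · exact h0
        have h3 : (2 * N - 1) / p = 2 * h - 1 := by
          have e : 2 * N - 1 = p * (2 * h - 1) + (p - 1) := by
            obtain ⟨h', rfl⟩ : ∃ h', h = h' + 1 := ⟨h - 1, by omega⟩
            have : 2 * (h' + 1) - 1 = 2 * h' + 1 := by omega
            rw [this, hNh]
            have : 2 * (p * (h' + 1)) = p * (2 * h' + 1) + p := by ring
            omega
          rw [e, Nat.mul_add_div hpp, Nat.div_eq_of_lt (by omega), add_zero]
        have h4 : (N - 1) / p = h - 1 := by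
          have e : N - 1 = p * (h - 1) + (p - 1) := by
            obtain ⟨h', rfl⟩ : ∃ h', h = h' + 1 := ⟨h - 1, by omega⟩
            rw [Nat.add_sub_cancel, hNh]
            have : p * (h' + 1) = p * h' + p := by ring
            omega
          rw [e, Nat.mul_add_div hpp, Nat.div_eq_of_lt (by omega), add_zero]
        have h5 : (2 * N - 1 - 2 * i) / p = h + (N - 1 - 2 * i) / p := by
          have e : 2 * N - 1 - 2 * i = p * h + (N - 1 - 2 * i) := by omega
          rw [e, Nat.mul_add_div hpp]
        omega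
      · have h3 : (2 * N - 1) / p = 2 * h := by
          have e : 2 * N - 1 = p * (2 * h) + (2 * b - 1) := by
            have : 2 * N = p * (2 * h) + 2 * b := by rw [hNh]; ring
            omega
          rw [e, Nat.mul_add_div hpp, Nat.div_eq_of_lt (by omega), add_zero]
        have h4 : (N - 1) / p = h := by
          have e : N - 1 = p * h + (b - 1) := by omega
          rw [e, Nat.mul_add_div hpp, Nat.div_eq_of_lt (by omega), add_zero]
        have h5 : h + (N - 1 - 2 * i) / p ≤ (2 * N - 1 - 2 * i) / p := by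
          rw [Nat.le_div_iff_mul_le hpp, add_mul]
          have h6 := Nat.div_mul_le_self (N - 1 - 2 * i) p
          have h7 : h * p ≤ N := by rw [hNh, mul_comm]; omega
          omega
        omega
  -- conclusion
  obtain ⟨D, hD⟩ : ∃ D, D = (2 * i + 1) / p := ⟨_, rfl⟩
  have hDp : D * p ≤ 2 * i + 1 := by rw [hD]; exact Nat.div_mul_le_self _ _
  rw [← hD] at hclaim
  have hkD : k * D < i := by
    rcases Nat.eq_zero_or_pos D with h0 | h0
    · rw [h0]; omega
    · have h3 : p ≤ 2 * i + 1 := (Nat.le_mul_of_pos_left p h0).trans hDp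
      by_contra hcon
      push Not at hcon
      have h4 : D * (2 * k + 2) ≤ D * p := Nat.mul_le_mul_left _ hp2k
      have h5 : D * (2 * k + 2) = 2 * (k * D) + 2 * D := by ring
      omega
  have h3 : k * v ≤ k * v' + k * D := by
    rw [← mul_add]
    exact Nat.mul_le_mul_left _ hclaim
  omega

/-- No monic factor of degree `k`. -/
theorem no_factor {N k x p : ℕ} {A B : ℤ[X]} (hAB : A * B = Zp N) (hA : A.Monic) (hB : B.Monic)
    (hk : A.natDegree = k) (hk0 : 1 ≤ k) (hp : p.Prime)
    (hx1 : N < x + 2 * k) (hx2 : x ≤ N + 2 * k) (hpx : p ∣ x) (hs : Slope N k p) : False := by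
  have hdeg : A.natDegree + B.natDegree = N / 2 := by
    rw [← hA.natDegree_mul hB, hAB, Zp_natDegree]
  have hcoef : ∀ i, i ≤ N / 2 → ((Zp N).coeff i).natAbs = cf N (N / 2 - i) := by
    intro i hi
    have := natAbs_coeff (N := N) (j := N / 2 - i) (by omega)
    rwa [show N / 2 - (N / 2 - i) = i by omega] at this
  have h1 : (p : ℤ) ∣ A.coeff 0 := by
    refine dvd_coeff_zero hp hB fun i hi => ?_
    rw [hAB, Int.natCast_dvd, hcoef i (by omega)]
    exact dvd_cf hp hx1 hx2 hpx (by omega) (by omega)
  refine not_dvd_coeff_zero hp hA (B := B) (k := k) (m := N / 2) hk (by omega)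
    (by rw [hAB, Zp_natDegree]) ?_ ?_ h1
  · rw [hAB]
    intro h
    have := hcoef 0 (Nat.zero_le _)
    rw [h] at this
    exact cf_ne_zero (N := N) (j := N / 2 - 0) (by omega) (by simpa using this.symm)
  · intro i hi1 hi2 _
    rw [hAB]
    unfold padicValInt
    rw [hcoef 0 (Nat.zero_le _), hcoef i hi2, Nat.sub_zero]
    exact hs i hi1 hi2

end Pool.Agent.Lib.MP_ff3579_an.H78
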