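import Mathlib
import Pool.Agent.Lib.MP_ff3579_an.H78.Slope

/-!
A prime close to `N` bounds the degree of a factor of `Zp N`.
-/

set_option autoImplicit false

open Polynomial

namespace Pool.Agent.Lib.MP_ff3579_an.H78

open Pool.Agent.Lib.MP_ff3579_an

theorem near_aux {N p s : ℕ} {A B : ℤ[X]} (hAB : A * B = Zp N) (hA : A.Monic) (hB : B.Monic)
    (hp : p.Prime) (h1 : ∀ j, s < j → 2 * j ≤ N → 1 ≤ padicValNat p (cf N j))
    (h2 : padicValNat p (cf N (N / 2)) = 1) : A.natDegree ≤ s ∨ B.natDegree ≤ s := by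
  have hcoef : ∀ i, i ≤ N / 2 → ((Zp N).coeff i).natAbs = cf N (N / 2 - i) := by
    intro i hi
    have := natAbs_coeff (N := N) (j := N / 2 - i) (by omega)
    rwa [show N / 2 - (N / 2 - i) = i by omega] at this
  refine natDegree_le_or hp hA hB (m := N / 2) (by rw [hAB, Zp_natDegree]) ?_ ?_
  · intro i hi
    rw [hAB, Int.natCast_dvd, hcoef i (by omega)]
    exact dvd_of_one_le_padicValNat (h1 (N / 2 - i) (by omega) (by omega))
  · rw [hAB]
    intro h
    have h3 : ((p : ℤ) ^ 2).natAbs ∣ ((Zp N).coeff 0).natAbs := Int.natAbs_dvd_natAbs.2 h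
    rw [hcoef 0 (Nat.zero_le _), Int.natAbs_pow, Int.natAbs_natCast, Nat.sub_zero] at h3
    have hF : Fact p.Prime := ⟨hp⟩
    have h4 := (padicValNat_dvd_iff_le (cf_ne_zero (N := N) (j := N / 2) (by omega))).1 h3
    omega

/-- a prime `p ≤ N`, `3 p > 2 N` -/
theorem near_below {N p : ℕ} {A B : ℤ[X]} (hAB : A * B = Zp N) (hA : A.Monic) (hB : B.Monic)
    (hp : p.Prime) (hp3 : 3 ≤ p) (h1 : p ≤ N) (h2 : 2 * N < 3 * p) :
    A.natDegree ≤ (N - p) / 2 ∨ B.natDegree ≤ (N - p) / 2 := by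
  have hpp := hp.pos
  have hsq : 2 * N < p ^ 2 := by
    have : 3 * p ≤ p * p := Nat.mul_le_mul_right _ hp3
    rw [pow_two]; omega
  refine near_aux hAB hA hB hp ?_ ?_
  · intro j hj hjN
    have h3 := val_cf_large hp hsq hjN
    have h4 : (N - 2 * j) / p = 0 := Nat.div_eq_of_lt (by omega)
    have h5 : (2 * j + p) / p ≤ (N + 2 * j) / p := Nat.div_le_div_right (by omega)
    rw [Nat.add_div_right _ hpp] at h5
    omega
  · have h3 := val_cf_large hp hsq (j := N / 2) (by omega)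
    have h4 : (N - 2 * (N / 2)) / p = 0 := Nat.div_eq_of_lt (by omega)
    rcases Nat.mod_two_eq_zero_or_one N with h | h
    · have h5 : (N + 2 * (N / 2)) / p = 2 := Nat.div_eq_of_lt_le (by omega) (by omega)
      have h6 : 2 * (N / 2) / p = 1 := Nat.div_eq_of_lt_le (by omega) (by omega)
      omega
    · rcases Nat.lt_or_ge p N with h7 | h7
      · have h5 : (N + 2 * (N / 2)) / p = 2 := Nat.div_eq_of_lt_le (by omega) (by omega)
        have h6 : 2 * (N / 2) / p = 1 := Nat.div_eq_of_lt_le (by omega) (by omega)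
        omega
      · have h5 : (N + 2 * (N / 2)) / p = 1 := Nat.div_eq_of_lt_le (by omega) (by omega)
        have h6 : 2 * (N / 2) / p = 0 := Nat.div_eq_of_lt (by omega)
        omega

/-- a prime `N < p < 2 N` -/
theorem near_above {N p : ℕ} {A B : ℤ[X]} (hAB : A * B = Zp N) (hA : A.Monic) (hB : B.Monic)
    (hp : p.Prime) (hp3 : 3 ≤ p) (h1 : N < p) (h2 : p < 2 * N) :
    A.natDegree ≤ (p - N - 1) / 2 ∨ B.natDegree ≤ (p - N - 1) / 2 := by
  have hpp := hp.pos
  have hsq : 2 * N < p ^ 2 := by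
    have : 3 * p ≤ p * p := Nat.mul_le_mul_right _ hp3
    rw [pow_two]; omega
  refine near_aux hAB hA hB hp ?_ ?_
  · intro j hj hjN
    have h3 := val_cf_large hp hsq hjN
    have h4 : (N - 2 * j) / p = 0 := Nat.div_eq_of_lt (by omega)
    have h5 : 2 * j / p = 0 := Nat.div_eq_of_lt (by omega)
    have h6 : 1 ≤ (N + 2 * j) / p := (Nat.one_le_div_iff hpp).2 (by omega)
    omega
  · have h3 := val_cf_large hp hsq (j := N / 2) (by omega)
    have h4 : (N - 2 * (N / 2)) / p = 0 := Nat.div_eq_of_lt (by omega)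
    have h5 : 2 * (N / 2) / p = 0 := Nat.div_eq_of_lt (by omega)
    have h6 : (N + 2 * (N / 2)) / p = 1 := Nat.div_eq_of_lt_le (by omega) (by omega)
    omega

end Pool.Agent.Lib.MP_ff3579_an.H78
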