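import Mathlib
import Pool.Agent.Lib.MP_ff3579_an.MainPart
import Pool.Agent.Lib.MP_ff3579_an.H78.Near
import Pool.Agent.Lib.MP_ff3579_an.H78.Cheb2
import Pool.Agent.Lib.MP_ff3579_an.H78.CountE

/-!
`Zp N` is irreducible for all large `N`.
-/

set_option autoImplicit false

open Polynomial

namespace Pool.Agent.Lib.MP_ff3579_an.H78

open Pool.Agent.Lib.MP_ff3579_an

theorem irreducible_large : ∃ N₀ : ℕ, ∀ N, N₀ ≤ N → Irreducible (Zp N) := by
  obtain ⟨N₁, hN₁⟩ := exists_near_prime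
  obtain ⟨C, N₂, hN₂⟩ := exists_large_prime
  obtain ⟨N₃, hN₃⟩ := exists_window_prime
  refine ⟨N₁ + N₂ + N₃ + C ^ 10 + 100, fun N hN => ?_⟩
  have hN100 : 100 ≤ N := by omega
  have hmon := Zp_monic N
  have hne1 : Zp N ≠ 1 := by
    intro h
    have h1 := Zp_natDegree N
    rw [h, natDegree_one] at h1
    omega
  rw [hmon.irreducible_iff_natDegree' ]
  refine ⟨hne1, fun B A hB hA hBA hmem => ?_⟩
  rw [Finset.mem_Ioc, Zp_natDegree] at hmem
  have hAB : A * B = Zp N := by rw [mul_comm]; exact hBA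
  have hdeg : A.natDegree + B.natDegree = N / 2 := by
    rw [← hA.natDegree_mul hB, hAB, Zp_natDegree]
  obtain ⟨k, hk⟩ : ∃ k, k = A.natDegree := ⟨_, rfl⟩
  rw [← hk] at hmem hdeg
  -- the degree of the factor is at most `N / 20`
  have hk20 : 20 * k ≤ N := by
    obtain ⟨p, hp, h1, h2⟩ := hN₁ N (by omega)
    rcases Nat.lt_or_ge N p with h | h
    · rcases near_above hAB hA hB hp (by omega) h (by omega) with h3 | h3 <;> omega
    · rcases near_below hAB hA hB hp (by omega) h (by omega) with h3 | h3 <;> omega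
  rcases le_or_gt ((k : ℝ)) ((N : ℝ) ^ (0.6 : ℝ)) with h6 | h6
  · obtain ⟨p, x, b, hp, hp8, hx1, hx2, hx3, hx4⟩ := hN₃ N k (by omega) hmem.1 h6 (by omega)
    have hp7 : 7 ≤ p := by
      have h6' : 6 ≤ p := by omega
      rcases Nat.eq_or_lt_of_le h6' with h | h
      · rw [← h] at hp
        norm_num at hp
      · exact h
    have hb : b ≠ 0 := by
      intro hb
      rw [hb, pow_zero] at hx4
      have : 1 ≤ 4 * k * (1 + Nat.log p (2 * N)) := by
        have : 1 * 1 ≤ 4 * k * (1 + Nat.log p (2 * N)) := Nat.mul_le_mul (by omega) (by omega)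
        omega
      omega
    exact no_factor hAB hA hB hk.symm hmem.1 hp hx1 hx2 ((dvd_pow_self p hb).trans hx3)
      (slope_of_window hp hmem.1 hp7 hp8 hx1 hx2 hx3 hx4)
  · have hCk : (C : ℝ) * √N ≤ k := by
      refine le_trans ?_ h6.le
      have hN0 : (0 : ℝ) < N := by
        have : 0 < N := by omega
        exact_mod_cast this
      have h1 : (C : ℝ) ≤ (N : ℝ) ^ (0.1 : ℝ) := by
        have h2 : ((C : ℝ) ^ (10 : ℕ)) ≤ N := by
          have : C ^ 10 ≤ N := by omega
          exact_mod_cast this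
        have h3 := Real.rpow_le_rpow (by positivity) h2 (show (0 : ℝ) ≤ 0.1 by norm_num)
        rw [← Real.rpow_natCast, ← Real.rpow_mul (by positivity)] at h3
        norm_num at h3
        norm_num
        exact h3
      have h2 : (N : ℝ) ^ (0.6 : ℝ) = (N : ℝ) ^ (0.1 : ℝ) * √N := by
        rw [Real.sqrt_eq_rpow, ← Real.rpow_add hN0]
        norm_num
      rw [h2]
      exact mul_le_mul_of_nonneg_right h1 (Real.sqrt_nonneg _)
    obtain ⟨p, b, hp, hp1, hp2, hb, hpb⟩ := hN₂ N k (by omega) hCk hk20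
    exact no_factor (x := N - b) hAB hA hB hk.symm hmem.1 hp (by omega) (by omega) hpb
      (slope_of_large hp hp1 hp2 hb (by omega) hpb)

theorem not_solvable_of_irreducible {N : ℕ} (hN : 33 ≤ N) (hirr : Irreducible (Zp N)) :
    ¬ Group.IsSolvable ((Zp N).map (Int.castRingHom ℚ)).Gal := by
  rcases Nat.mod_two_eq_zero_or_one N with hpar | hpar
  · obtain ⟨m, hm⟩ : ∃ m, N = 2 * m := ⟨N / 2, by omega⟩
    have hm2 : N / 2 = m := by omega
    obtain ⟨r, hr, hr2, h1, h2, h3, hA⟩ := exists_prime_even (m := m) (by omega)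
    intro hsol
    apply hA
    rw [← hm2]
    refine standard hirr hr hr2 (by omega) ?_ hsol
    have hodd : r % 2 = 1 := hr.eq_two_or_odd.resolve_left hr2
    have hdm := Nat.div_add_mod N r
    have hlt := Nat.mod_lt N hr.pos
    have hge2 : 2 ≤ N / r := (Nat.le_div_iff_mul_le hr.pos).2 (by omega)
    rcases Nat.lt_or_ge (N / r) 3 with h4 | h4
    · have h5 : N / r = 2 := by omega
      rw [h5] at hdm ⊢
      omega
    · omega
  · obtain ⟨m, hm⟩ : ∃ m, N = 2 * m + 1 := ⟨N / 2, by omega⟩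
    have hm2 : N / 2 = m := by omega
    obtain ⟨r, hr, hr2, h1, h2, hA⟩ := exists_prime_odd (m := m) (by omega)
    intro hsol
    apply hA
    rw [← hm2]
    refine standard hirr hr hr2 (by omega) ?_ hsol
    have hge3 : 3 ≤ N / r := (Nat.le_div_iff_mul_le hr.pos).2 (by omega)
    omega

theorem main : ∃ n₀ : ℕ, ∀ n, n₀ ≤ n →
    (minpoly ℚ (markovConst n 2 ^ 2)).natDegree = (n + 1) / 2 ∧
    ((markovConst n 2 : ℝ) : ℂ) ∉ solvableByRad ℚ ℂ := by
  obtain ⟨N₀, hN₀⟩ := irreducible_large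
  refine ⟨N₀ + 33, fun n hn => ?_⟩
  have hirr := hN₀ (n + 1) (by omega)
  exact ⟨natDegree_minpoly (by omega) hirr,
    not_mem_of_not_solvable (by omega) hirr (not_solvable_of_irreducible (by omega) hirr)⟩

end Pool.Agent.Lib.MP_ff3579_an.H78
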